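import Pool.Agent.Lib.MP_7e554c_an.CZ.Lin

/-! The functional calculus. -/

open MeasureTheory Metric Set Filter Topology Complex Polynomial
open scoped InnerProductSpace ComplexConjugate Real

namespace Pool.Agent.Lib.MP_7e554c_an.CZ

set_option linter.unusedSectionVars false

variable {E : Type} [NormedAddCommGroup E] [InnerProductSpace ℂ E] [CompleteSpace E]
  [FiniteDimensional ℂ E]
  {Ω U : Set ℂ} {γ : ℝ → ℂ} {A T : Op E} {f : ℂ → ℂ} {x y : E}

theorem Rep.mono (R : Rep U A f T) {U' : Set ℂ} (h : U' ⊆ U) : Rep U' A f T := by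
  obtain ⟨K, k1, k2⟩ := R.ex
  exact ⟨R.df.mono h, R.cm, K, k1.mono h, fun z hz => k2 z (h hz)⟩

theorem Rep.congr (R : Rep U A f T) {g : ℂ → ℂ} (h : ∀ z ∈ U, g z = f z) : Rep U A g T := by
  obtain ⟨K, k1, k2⟩ := R.ex
  exact ⟨R.df.congr h, R.cm, K, k1, fun z hz => by rw [h z hz]; exact k2 z hz⟩

theorem Rep.affine (R : Rep U A f T) (a b : ℂ) :
    Rep U A (fun z => a * f z + b) (a • T + b • (1 : Op E)) := by
  obtain ⟨K, k1, k2⟩ := R.ex
  refine ⟨(R.df.const_mul a).add_const b,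
    (R.cm.smul_right a).add_right ((Commute.one_right A).smul_right b), fun z => a • K z,
    k1.const_smul a, fun z hz => ⟨(k2 z hz).1.smul_right a, ?_⟩⟩
  rw [mul_smul_comm, ← (k2 z hz).2, add_smul, mul_smul, smul_sub]
  abel

theorem Rep.mul {g : ℂ → ℂ} {S : Op E} (R : Rep U A f T) (R' : Rep U A g S) :
    Rep U A (fun z => f z * g z) (T * S) := by
  obtain ⟨K, k1, k2⟩ := R.ex
  obtain ⟨J, j1, j2⟩ := R'.ex
  refine ⟨R.df.mul R'.df, R.cm.mul_right R'.cm, fun z => f z • J z + K z * S,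
    (R.df.smul j1).add (k1.mul_const S), fun z hz =>
      ⟨((j2 z hz).1.smul_right _).add_right ((k2 z hz).1.mul_right R'.cm), ?_⟩⟩
  rw [mul_add, mul_smul_comm, ← (j2 z hz).2, ← mul_assoc, ← (k2 z hz).2, sub_mul, smul_mul_assoc,
    one_mul, smul_sub, mul_smul]
  abel

theorem Rep.pow (R : Rep U A f T) (k : ℕ) : Rep U A (fun z => f z ^ k) (T ^ k) := by
  induction k with
  | zero =>
    have := R.affine 0 1
    simpa using this
  | succ k ih => simpa only [pow_succ] using ih.mul R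

theorem Rep.inv (R : Rep U A f T) (h : ∀ z ∈ U, f z ≠ 0) {S : Op E} (h1 : S * T = 1)
    (h2 : T * S = 1) : Rep U A (fun z => (f z)⁻¹) S := by
  obtain ⟨K, k1, k2⟩ := R.ex
  have c : Commute A S := by
    calc A * S = S * T * A * S := by rw [h1, one_mul]
      _ = S * A * (T * S) := by rw [mul_assoc S T A, ← R.cm.eq]; simp only [mul_assoc]
      _ = S * A := by rw [h2, mul_one]
  refine ⟨R.df.inv h, c, fun z => -(f z)⁻¹ • (K z * S),
    (R.df.inv h).neg.smul (k1.mul_const S), fun z hz =>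
      ⟨((k2 z hz).1.mul_right c).smul_right _, ?_⟩⟩
  rw [mul_smul_comm, ← mul_assoc, ← (k2 z hz).2, sub_mul, h2, smul_mul_assoc, one_mul, smul_sub,
    smul_smul, neg_mul, inv_mul_cancel₀ (h z hz), neg_smul, neg_smul, one_smul]
  abel

theorem Rep.id (U : Set ℂ) (A : Op E) : Rep U A (fun z => z) A :=
  ⟨differentiableOn_id, Commute.refl A, fun _ => 1, differentiableOn_const _,
    fun _ _ => ⟨Commute.one_right A, (mul_one _).symm⟩⟩

theorem Rep.add {g : ℂ → ℂ} {S : Op E} (R : Rep U A f T) (R' : Rep U A g S) :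
    Rep U A (fun z => f z + g z) (T + S) := by
  obtain ⟨K, k1, k2⟩ := R.ex
  obtain ⟨J, j1, j2⟩ := R'.ex
  refine ⟨R.df.add R'.df, R.cm.add_right R'.cm, fun z => K z + J z, k1.add j1, fun z hz =>
    ⟨(k2 z hz).1.add_right (j2 z hz).1, ?_⟩⟩
  rw [mul_add, ← (k2 z hz).2, ← (j2 z hz).2, add_smul]
  abel

theorem Rep.poly (U : Set ℂ) (A : Op E) (p : ℂ[X]) : Rep U A (fun z => p.eval z) (aeval A p) := by
  induction p using Polynomial.induction_on' with
  | add p q hp hq => simpa only [eval_add, map_add] using hp.add hq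
  | monomial k a =>
    have := ((Rep.id U A).pow k).affine a 0
    rw [zero_smul, add_zero, Algebra.smul_def] at this
    simpa only [eval_monomial, aeval_monomial, add_zero] using this

theorem Rep.of_poly (p D : ℂ[X]) {k : ℂ → ℂ} (hk : DifferentiableOn ℂ k U) (hD : aeval A D = 0) :
    Rep U A (fun z => p.eval z + D.eval z * k z) (aeval A p) := by
  obtain ⟨K, k1, k2⟩ := (Rep.poly U A D).ex
  have R : Rep U A (fun z => D.eval z * k z) 0 := by
    refine ⟨D.differentiableOn.mul hk, Commute.zero_right A, fun z => k z • K z, hk.smul k1,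
      fun z hz => ⟨(k2 z hz).1.smul_right _, ?_⟩⟩
    rw [mul_smul_comm, ← (k2 z hz).2, hD, sub_zero, sub_zero, smul_smul, mul_comm]
  simpa only [add_zero] using (Rep.poly U A p).add R

theorem Rep.eigv (R : Rep U A f T) {z : ℂ} (hz : z ∈ U) {v : E} (hv : A v = z • v) :
    T v = f z • v := by
  obtain ⟨K, -, k2⟩ := R.ex
  have c : Commute (z • (1 : Op E) - A) (K z) :=
    ((Commute.one_left _).smul_left z).sub_left (k2 z hz).1
  have e := congrArg (fun B : Op E => B v) ((k2 z hz).2.trans c.eq)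
  simp only [mul_ap, sh_ap, hv, sub_self, map_zero] at e
  exact (sub_eq_zero.1 e).symm

theorem Rep.eigv' (R : Rep U A f T) {z : ℂ} (hz : z ∈ U) {v : E}
    (hv : star A v = conj z • v) : star T v = conj (f z) • v := by
  obtain ⟨K, -, k2⟩ := R.ex
  refine ext_inner_right ℂ fun w => ?_
  have e := congrArg (fun B : Op E => ⟪v, B w⟫_ℂ) (k2 z hz).2
  simp only [mul_ap, sh_ap, inner_sub_right, inner_smul_right] at e
  rw [← star_left A, hv, inner_smul_left, conj_conj, sub_self] at e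
  rw [star_left, inner_smul_left, conj_conj]
  exact (sub_eq_zero.1 e).symm

theorem Rep.spec (R : Rep U A f T) (hs : spectrum ℂ A ⊆ U) {τ : ℂ} (h : τ ∈ spectrum ℂ T) :
    ∃ z ∈ spectrum ℂ A, f z = τ := by
  obtain ⟨v, v1, v2⟩ := eig.1 h
  let W : Submodule ℂ E := Module.End.eigenspace (T : E →ₗ[ℂ] E) τ
  have mE : ∀ w, w ∈ W ↔ T w = τ • w := fun w => Module.End.mem_eigenspace_iff
  have inv : ∀ w ∈ W, (A : E →ₗ[ℂ] E) w ∈ W := fun w hw => by
    rw [mE] at hw ⊢
    show T (A w) = τ • A w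
    rw [← mul_ap, ← R.cm.eq, mul_ap, hw, map_smul]
  have v0 : v ≠ 0 := fun e => by rw [e, norm_zero] at v1; exact zero_ne_one v1
  have : Nontrivial W := ⟨⟨v, (mE v).2 v2⟩, 0, fun e => v0 (congrArg Subtype.val e)⟩
  obtain ⟨z, hz⟩ := Module.End.exists_eigenvalue ((A : E →ₗ[ℂ] E).restrict inv)
  obtain ⟨w, hw⟩ := hz.exists_hasEigenvector
  have w0 : (w : E) ≠ 0 := fun e => hw.2 (Subtype.ext e)
  have w1 : A w = z • (w : E) := congrArg Subtype.val hw.apply_eq_smul
  have hz' : z ∈ spectrum ℂ A := eig.2 ⟨_, unit_vec w0, by rw [map_smul, w1, smul_comm]⟩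
  refine ⟨z, hz', ?_⟩
  have e := (R.eigv (hs hz') w1).symm.trans ((mE w).1 w.2)
  exact smul_left_injective ℂ w0 e

end Pool.Agent.Lib.MP_7e554c_an.CZ
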