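import Pool.Agent.Lib.MP_7e554c_an.CZ.FTC
import Pool.Agent.Lib.MP_7e554c_an.CZ.RepA

/-! The Cauchy formula on the boundary curve. -/

open MeasureTheory Metric Set Filter Topology Complex Polynomial
open scoped InnerProductSpace ComplexConjugate Real

namespace Pool.Agent.Lib.MP_7e554c_an.CZ

set_option linter.unusedSectionVars false

variable {E : Type} [NormedAddCommGroup E] [InnerProductSpace ℂ E] [CompleteSpace E]
  [FiniteDimensional ℂ E]
  {Ω U : Set ℂ} {γ : ℝ → ℂ} {A T : Op E} {f : ℂ → ℂ} {x y : E}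

theorem Crv.wind_all (C : Crv Ω γ) (cv : Convex ℝ Ω) {z : ℂ} (hz : z ∈ interior Ω) :
    ∫ t in (0 : ℝ)..2 * π, deriv γ t * (γ t - z)⁻¹ = 2 * π * I := by
  obtain ⟨c, hc, e⟩ := C.wind
  have sg : segment ℝ c z ⊆ interior Ω := cv.interior.segment_subset hc hz
  have cl : IsClosed (segment ℝ c z) := by
    rw [segment_eq_image]
    exact (isCompact_Icc.image (by fun_prop)).isClosed
  have hO : frontier Ω ⊆ (segment ℝ c z)ᶜ := fun w hw h => hw.2 (sg h)
  have nc : ∀ w ∈ (segment ℝ c z)ᶜ, w - c ≠ 0 := fun w hw h =>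
    hw (sub_eq_zero.1 h ▸ left_mem_segment ℝ c z)
  have nz : ∀ w ∈ (segment ℝ c z)ᶜ, w - z ≠ 0 := fun w hw h =>
    hw (sub_eq_zero.1 h ▸ right_mem_segment ℝ c z)
  have k := C.int_exact cl.isOpen_compl hO (Φ := fun w => log ((w - z) / (w - c)))
    (φ := fun w => (w - z)⁻¹ - (w - c)⁻¹) fun w hw => by
      have sl : (w - z) / (w - c) ∈ slitPlane := by
        by_contra h
        rw [mem_slitPlane_iff, not_or, not_lt, not_not] at h
        obtain ⟨s, s0, hs⟩ : ∃ s : ℝ, 0 ≤ s ∧ (w - z) / (w - c) = -(s : ℂ) :=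
          ⟨-((w - z) / (w - c)).re, by linarith [h.1], Complex.ext (by simp) (by simp [h.2])⟩
        rw [div_eq_iff (nc w hw)] at hs
        have s1 : (0 : ℝ) < 1 + s := by linarith
        have s2 : (1 + s : ℂ) ≠ 0 := by exact_mod_cast s1.ne'
        refine hw ⟨s / (1 + s), 1 / (1 + s), by positivity, by positivity, by field_simp; ring, ?_⟩
        simp only [real_smul]
        push_cast
        field_simp
        linear_combination -hs
      have d := (((hasDerivAt_id w).sub_const z).div ((hasDerivAt_id w).sub_const c)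
        (nc w hw)).clog sl
      refine d.congr_deriv ?_
      have := nc w hw
      have := nz w hw
      simp only [id, Pi.div_apply]
      field_simp
  have c1 : ContinuousOn (fun w : ℂ => (w - z)⁻¹) (frontier Ω) :=
    (continuousOn_id.sub continuousOn_const).inv₀ fun w hw => nz w (hO hw)
  have c2 : ContinuousOn (fun w : ℂ => (w - c)⁻¹) (frontier Ω) :=
    (continuousOn_id.sub continuousOn_const).inv₀ fun w hw => nc w (hO hw)
  simp only [smul_sub] at k
  rw [intervalIntegral.integral_sub (C.intg c1) (C.intg c2), sub_eq_zero] at k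
  exact k.trans e

theorem Crv.wind_pow (C : Crv Ω γ) {z : ℂ} (hz : z ∈ interior Ω) (j : ℕ) :
    ∫ t in (0 : ℝ)..2 * π, deriv γ t * (γ t - z)⁻¹ ^ (j + 2) = 0 := by
  refine C.int_exact (isOpen_compl_singleton (x := z)) (fun w hw h => hw.2 (h ▸ hz))
    (Φ := fun w => -((j + 1 : ℕ) : ℂ)⁻¹ * (w - z)⁻¹ ^ (j + 1)) (φ := fun w => (w - z)⁻¹ ^ (j + 2))
    fun w hw => ?_
  have h0 : w - z ≠ 0 := sub_ne_zero.2 hw
  have h1 : ((j + 1 : ℕ) : ℂ) ≠ 0 := Nat.cast_ne_zero.2 j.succ_ne_zero
  have d := ((((hasDerivAt_id w).sub_const z).inv h0).pow (j + 1)).const_mul (-((j + 1 : ℕ) : ℂ)⁻¹)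
  refine d.congr_deriv ?_
  simp only [id, Pi.inv_apply, Nat.add_sub_cancel, pow_add]
  field_simp

theorem Crv.res_gen (C : Crv Ω γ) (cv : Convex ℝ Ω) (hs : spectrum ℂ A ⊆ interior Ω) {z : ℂ}
    (hz : z ∈ interior Ω) (k : ℕ) : ∀ (v : E) (j : ℕ), ((A - z • (1 : Op E)) ^ k) v = 0 →
    ∫ t in (0 : ℝ)..2 * π, deriv γ t • (γ t - z)⁻¹ ^ j • resolvent A (γ t) v =
      (if j = 0 then (2 * π * I : ℂ) else 0) • v := by
  have rs : frontier Ω ⊆ resolventSet ℂ A := fun w hw => by
    by_contra h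
    exact hw.2 (hs h)
  have nz : ∀ w ∈ frontier Ω, w - z ≠ 0 := fun w hw h => hw.2 (sub_eq_zero.1 h ▸ hz)
  have c1 : ContinuousOn (fun w : ℂ => (w - z)⁻¹) (frontier Ω) :=
    (continuousOn_id.sub continuousOn_const).inv₀ nz
  induction k with
  | zero =>
    intro v j h
    have : v = 0 := h
    simp [this]
  | succ k ih =>
    intro v j h
    rw [pow_succ, mul_ap] at h
    have e : ∀ t, deriv γ t • (γ t - z)⁻¹ ^ j • resolvent A (γ t) v =
        deriv γ t • (γ t - z)⁻¹ ^ (j + 1) • v +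
        deriv γ t • (γ t - z)⁻¹ ^ (j + 1) • resolvent A (γ t) ((A - z • (1 : Op E)) v) := fun t => by
      have e1 := congrArg (fun B : Op E => B v) (res_mul (rs (C.fr t)))
      simp only [mul_ap, sh_ap, one_ap, map_sub, map_smul] at e1
      have e2 : (A - z • (1 : Op E)) v = A v - z • v := rfl
      have e3 : v + resolvent A (γ t) ((A - z • (1 : Op E)) v) =
          (γ t - z) • resolvent A (γ t) v := by
        rw [e2, map_sub, map_smul, sub_smul]
        linear_combination (norm := module) -e1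
      rw [← smul_add, ← smul_add, e3, pow_succ, smul_smul _ (γ t - z), mul_assoc,
        inv_mul_cancel₀ (nz _ (C.fr t)), mul_one]
    simp only [e]
    rw [intervalIntegral.integral_add
      (C.intg (g := fun w => (w - z)⁻¹ ^ (j + 1) • v) ((c1.pow _).smul continuousOn_const))
      (C.intg (g := fun w => (w - z)⁻¹ ^ (j + 1) • resolvent A w ((A - z • (1 : Op E)) v))
        ((c1.pow _).smul (((res_contOn A).mono rs).clm_apply continuousOn_const))),
      ih _ _ h, if_neg j.succ_ne_zero, zero_smul, add_zero]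
    simp only [smul_smul]
    rw [intervalIntegral.integral_smul_const]
    rcases j with _ | j
    · simp only [zero_add, pow_one, if_true, C.wind_all cv hz]
    · rw [C.wind_pow hz, if_neg j.succ_ne_zero]

theorem Crv.int_res (C : Crv Ω γ) (cv : Convex ℝ Ω) (hs : spectrum ℂ A ⊆ interior Ω) :
    ∫ t in (0 : ℝ)..2 * π, deriv γ t • resolvent A (γ t) = (2 * π * I : ℂ) • (1 : Op E) := by
  have rs : frontier Ω ⊆ resolventSet ℂ A := fun w hw => by
    by_contra h
    exact hw.2 (hs h)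
  have i := C.intg ((res_contOn A).mono rs)
  ext v
  have hv : v ∈ ⨆ z : ℂ, Module.End.maxGenEigenspace (A : E →ₗ[ℂ] E) z := by
    rw [Module.End.iSup_maxGenEigenspace_eq_top]; trivial
  refine Submodule.iSup_induction _ (motive := fun v =>
    (∫ t in (0 : ℝ)..2 * π, deriv γ t • resolvent A (γ t)) v = ((2 * π * I : ℂ) • (1 : Op E)) v)
    hv (fun z w hw => ?_) (by simp) fun a b ha hb => by rw [map_add, map_add, ha, hb]
  obtain ⟨k, hk⟩ := (Module.End.mem_maxGenEigenspace _ _ _).1 hw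
  have hk' : ((A - z • (1 : Op E)) ^ k) w = 0 := by
    rw [← hk]
    exact (DFunLike.congr_fun (map_pow (ContinuousLinearMap.toLinearMapRingHom (R₁ := ℂ) (M₁ := E))
      (A - z • (1 : Op E)) k) w :)
  by_cases hz : z ∈ spectrum ℂ A
  · have := C.res_gen cv hs (hs hz) k w 0 hk'
    rw [ContinuousLinearMap.intervalIntegral_apply i]
    simpa using this
  · have u : IsUnit (A - z • (1 : Op E)) := by
      rw [spectrum.notMem_iff, Algebra.algebraMap_eq_smul_one] at hz
      simpa using hz.neg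
    have inj := (ContinuousLinearMap.isUnit_iff_bijective.1 (u.pow k)).1
    rw [inj (hk'.trans (map_zero _).symm), map_zero, map_zero]

theorem Sit.cauchy (S : Sit Ω U γ A f T) {g : ℂ → ℂ} {B : Op E} (R : Rep U A g B) :
    ∫ t in (0 : ℝ)..2 * π, deriv γ t • g (γ t) • resolvent A (γ t) = (2 * π * I : ℂ) • B := by
  obtain ⟨K, k1, k2⟩ := R.ex
  obtain ⟨Φ, hΦ⟩ := S.D.cU.exists_forall_hasDerivWithinAt k1
  have i0 := S.C.int_exact S.D.oU S.D.frU fun z hz => (hΦ z hz).hasDerivAt (S.D.oU.mem_nhds hz)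
  have i1 := S.C.intg ((res_contOn A).mono S.res)
  have e : ∀ t, deriv γ t • g (γ t) • resolvent A (γ t) =
      (ContinuousLinearMap.mul ℂ (Op E)).flip B (deriv γ t • resolvent A (γ t)) +
        deriv γ t • K (γ t) := fun t => by
    have e1 := congrArg (fun M => resolvent A (γ t) * M) (k2 _ (S.D.frU (S.C.fr t))).2
    simp only [← mul_assoc, res_mul (S.res (S.C.fr t)), one_mul, mul_sub, mul_smul_comm,
      mul_one] at e1
    rw [map_smul, ← smul_add, ← e1]
    simp
  simp only [e]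
  rw [intervalIntegral.integral_add
    ⟨((ContinuousLinearMap.mul ℂ (Op E)).flip B).integrable_comp i1.1,
      ((ContinuousLinearMap.mul ℂ (Op E)).flip B).integrable_comp i1.2⟩
    (S.C.intg (k1.continuousOn.mono S.D.frU)), i0, add_zero,
    ContinuousLinearMap.intervalIntegral_comp_comm _ i1, S.C.int_res S.D.cv S.sp]
  simp

theorem Dom.ident (D : Dom Ω U) {g h : ℂ → ℂ} (dg : DifferentiableOn ℂ g U)
    (dh : DifferentiableOn ℂ h U) {Z : Set ℂ} (hZ : Z.Infinite) (sub : Z ⊆ Ω)
    (e : ∀ z ∈ Z, g z = h z) : ∀ z ∈ U, g z = h z := by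
  obtain ⟨w, hw, ha⟩ := hZ.exists_accPt_of_subset_isCompact D.cp sub
  refine (dg.analyticOnNhd D.oU).eqOn_of_preconnected_of_frequently_eq (dh.analyticOnNhd D.oU)
    D.cU.isPreconnected (D.sub hw) ?_
  rw [accPt_iff_frequently] at ha
  exact frequently_nhdsWithin_iff.2 (ha.mono fun z hz => ⟨e z hz.2, hz.1⟩)

theorem two_pi_I : (2 * π * I : ℂ) ≠ 0 := two_pi_I_ne_zero

theorem Sit.nonconst (S : Sit Ω U γ A f T) (h : 1 < ‖T‖) (c : ℂ) :
    {z | z ∈ Ω ∧ f z = c}.Finite := by
  by_contra hi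
  have hi' : {z | z ∈ Ω ∧ f z = c}.Infinite := hi
  have e := S.D.ident S.R.df (differentiableOn_const c) hi' (fun z hz => hz.1) fun z hz => hz.2
  have R : Rep U A f ((0 : ℂ) • T + c • (1 : Op E)) :=
    (S.R.affine 0 c).congr fun z hz => by rw [e z hz, zero_mul, zero_add]
  have e2 := smul_right_injective _ two_pi_I ((S.cauchy S.R).symm.trans (S.cauchy R))
  obtain ⟨z, hz⟩ := hi'.nonempty
  have b := S.bf z hz.1
  rw [zero_smul, zero_add] at e2
  rw [e2, norm_smul, ← hz.2] at h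
  have := mul_le_one₀ b (norm_nonneg (1 : Op E)) ContinuousLinearMap.norm_id_le
  linarith

theorem Sit.spec_lt (S : Sit Ω U γ A f T) (h : 1 < ‖T‖) : ∀ z ∈ spectrum ℂ T, ‖z‖ < 1 := by
  intro τ hτ
  obtain ⟨z, hz, rfl⟩ := S.R.spec (S.sp.trans (interior_subset.trans S.D.sub)) hτ
  have hi := S.sp hz
  refine lt_of_le_of_ne (S.bf z (interior_subset hi)) fun e => ?_
  have m : IsMaxOn (norm ∘ f) (interior Ω) z := fun w hw => by
    show ‖f w‖ ≤ ‖f z‖
    rw [e]; exact S.bf w (interior_subset hw)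
  have k := Complex.eqOn_of_isPreconnected_of_isMaxOn_norm S.D.cv.interior.isPreconnected
    isOpen_interior (S.R.df.mono (interior_subset.trans S.D.sub)) hi m
  exact infinite_of_mem_nhds z (isOpen_interior.mem_nhds hi)
    ((S.nonconst h (f z)).subset fun w hw => ⟨interior_subset hw, k hw⟩)

end Pool.Agent.Lib.MP_7e554c_an.CZ
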