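import Pool.Agent.Lib.MP_7e554c_an.CZ.Lin

/-! The perturbation lemma and its equality case. -/

open MeasureTheory Metric Set Filter Topology Complex Polynomial
open scoped InnerProductSpace ComplexConjugate Real

namespace Pool.Agent.Lib.MP_7e554c_an.CZ

set_option linter.unusedSectionVars false

variable {E : Type} [NormedAddCommGroup E] [InnerProductSpace ℂ E] [CompleteSpace E]
  [FiniteDimensional ℂ E]
  {Ω U : Set ℂ} {γ : ℝ → ℂ} {A T : Op E} {f : ℂ → ℂ} {x y : E}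

theorem quad_add {M : Op E} (hs : star M = M) (a b : E) : (⟪a + b, M (a + b)⟫_ℂ).re =
    (⟪a, M a⟫_ℂ).re + 2 * (⟪b, M a⟫_ℂ).re + (⟪b, M b⟫_ℂ).re := by
  have e : (⟪a, M b⟫_ℂ).re = (⟪b, M a⟫_ℂ).re := by
    rw [← star_left, hs, ← inner_conj_symm, conj_re]
  rw [map_add, inner_add_left, inner_add_right, inner_add_right, add_re, add_re, add_re, e]
  ring

theorem quad_smul (M : Op E) (c : ℂ) (a : E) :
    (⟪c • a, M (c • a)⟫_ℂ).re = ‖c‖ ^ 2 * (⟪a, M a⟫_ℂ).re := by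
  rw [map_smul, inner_smul_left, inner_smul_right, ← mul_assoc, conj_mul', ← ofReal_pow,
    re_ofReal_mul]

theorem seq_nonneg {κ B : ℝ} (hκ : 1 < κ) {d : ℕ → ℝ} (h : ∀ k, d (k + 1) ≤ κ * d k)
    (hB : ∀ k, -B ≤ d k) (k : ℕ) : 0 ≤ d k := by
  by_contra hn
  have h0 : 0 < -d k := neg_pos.2 (not_le.1 hn)
  have it : ∀ j, d (k + j) ≤ κ ^ j * d k := fun j => by
    induction j with
    | zero => simp
    | succ j ih =>
      refine (h (k + j)).trans ((mul_le_mul_of_nonneg_left ih (by linarith)).trans (le_of_eq ?_))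
      ring
  obtain ⟨j, hj⟩ := pow_unbounded_of_one_lt (B / -d k) hκ
  rw [div_lt_iff₀ h0] at hj
  linarith [it j, hB (k + j)]

theorem int_pair {α : Type} [MeasurableSpace α] {ν : Measure α} {M : α → Op E}
    (i : Integrable M ν) (a b : E) : Integrable (fun t => (⟪a, M t b⟫_ℂ).re) ν ∧
      ∫ t, (⟪a, M t b⟫_ℂ).re ∂ν = (⟪a, (∫ t, M t ∂ν) b⟫_ℂ).re := by
  have i1 : Integrable (fun t => M t b) ν := i.apply_continuousLinearMap b
  have i2 : Integrable (fun t => ⟪a, M t b⟫_ℂ) ν := i1.const_inner a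
  refine ⟨i2.re, ?_⟩
  rw [ContinuousLinearMap.integral_apply i, ← integral_inner i1]
  exact integral_re i2

theorem int3 {α : Type} [MeasurableSpace α] {ν : Measure α} {a b c : α → ℝ} (ha : Integrable a ν)
    (hb : Integrable b ν) (hc : Integrable c ν) (p q r : ℝ) :
    Integrable (fun t => p * a t + q * b t + r * c t) ν ∧ ∫ t, p * a t + q * b t + r * c t ∂ν =
      p * ∫ t, a t ∂ν + q * ∫ t, b t ∂ν + r * ∫ t, c t ∂ν := by
  have i1 : Integrable (fun t => p * a t + q * b t) ν := (ha.const_mul p).add (hb.const_mul q)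
  refine ⟨i1.add (hc.const_mul r), ?_⟩
  rw [integral_add i1 (hc.const_mul r), integral_add (ha.const_mul p) (hb.const_mul q),
    integral_const_mul, integral_const_mul, integral_const_mul]

theorem ls {α : Type} [MeasurableSpace α] {ν : Measure α} {μ : α → Op E} (iμ : Integrable μ ν)
    (pos : ∀ᵐ t ∂ν, star (μ t) = μ t ∧ ∀ v : E, 0 ≤ (⟪v, μ t v⟫_ℂ).re) {g : α → ℂ}
    (mg : AEStronglyMeasurable g ν) (bg : ∀ t, ‖g t‖ ≤ 1) {G : ℕ → Op E}
    (h0 : ∫ t, μ t ∂ν = (2 : ℂ) • (1 : Op E))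
    (hn : ∀ k, ∫ t, g t ^ k • μ t ∂ν = T ^ k + star (G k)) (cG : ∀ k, Commute T (G k)) {C : ℝ}
    (bG : ∀ k, ‖G k‖ ≤ C) (bT : ∀ k, ‖T ^ k‖ ≤ C) :
    ‖T‖ ≤ 2 ∧ (‖T‖ = 2 → Tendsto (fun k : ℕ => T ^ k) atTop (𝓝 0) →
      ∃ x y : E, ‖x‖ = 1 ∧ T x = (2 : ℂ) • y ∧ star T y = (2 : ℂ) • x ∧ T y = 0 ∧
        ∀ᵐ t ∂ν, μ t (y - g t • x) = 0 ∧ (1 - ‖g t‖ ^ 2) * (⟪x, μ t x⟫_ℂ).re = 0) := by
  by_cases h1 : 1 < ‖T‖
  swap
  · exact ⟨by linarith, fun h2 => absurd (by linarith) h1⟩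
  obtain ⟨x, nx, hx⟩ := exists_top (T := T) (by linarith)
  obtain ⟨κ, hκ⟩ : ∃ κ, κ = ‖T‖ := ⟨_, rfl⟩
  rw [← hκ] at h1 hx ⊢
  have ik : ∀ k : ℕ, Integrable (fun t => g t ^ k • μ t) ν := fun k =>
    iμ.bdd_smul 1 (mg.pow k) (ae_of_all _ fun t => by
      rw [Pi.pow_apply, norm_pow]; exact pow_le_one₀ (norm_nonneg _) (bg t))
  have P0 : ∀ v : E, Integrable (fun t => (⟪v, μ t v⟫_ℂ).re) ν ∧
      ∫ t, (⟪v, μ t v⟫_ℂ).re ∂ν = 2 * ‖v‖ ^ 2 := fun v => by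
    refine ⟨(int_pair iμ v v).1, ?_⟩
    rw [(int_pair iμ v v).2, h0, smul_apply, one_ap, inner_smul_right, nsq, ← ofReal_ofNat,
      re_ofReal_mul, ofReal_re]
  have Pk : ∀ (k : ℕ) (a b : E), Integrable (fun t => (⟪a, (g t ^ k • μ t) b⟫_ℂ).re) ν ∧
      ∫ t, (⟪a, (g t ^ k • μ t) b⟫_ℂ).re ∂ν = (⟪a, (T ^ k) b⟫_ℂ).re + (⟪G k a, b⟫_ℂ).re :=
    fun k a b => by
      refine ⟨(int_pair (ik k) a b).1, ?_⟩
      rw [(int_pair (ik k) a b).2, hn, add_apply, inner_add_right, star_right, add_re]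
  obtain ⟨m, hm⟩ : ∃ m : ℕ → ℝ, ∀ k, m k = (⟪G k ((T ^ k) x), x⟫_ℂ).re := ⟨_, fun _ => rfl⟩
  obtain ⟨w, hw⟩ : ∃ w : α → E, ∀ t, w t = T x - ((κ : ℂ) * g t) • x := ⟨_, fun _ => rfl⟩
  have nT : ‖T x‖ ^ 2 = κ ^ 2 := by
    have := star_left T (T x) x
    rw [hx, inner_smul_left, nsq, nsq, nx, conj_ofReal] at this
    exact_mod_cast (by simpa using this.symm : ((‖T x‖ : ℂ)) ^ 2 = (κ : ℂ) ^ 2)
  have ie : Integrable (fun t => ‖g t‖ ^ 2 * (⟪x, μ t x⟫_ℂ).re) ν :=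
    (P0 x).1.bdd_mul (c := 1) (mg.norm.pow 2) (ae_of_all _ fun t => by
      rw [norm_pow, norm_norm]; exact pow_le_one₀ (norm_nonneg _) (bg t))
  have g1 : ∀ t (k : ℕ), ‖g t‖ ^ k ≤ 1 := fun t k => pow_le_one₀ (norm_nonneg _) (bg t)
  have ne : 0 ≤ᵐ[ν] fun t => (1 - ‖g t‖ ^ 2) * (⟪x, μ t x⟫_ℂ).re :=
    pos.mono fun t ht => mul_nonneg (sub_nonneg.2 (g1 t 2)) (ht.2 x)
  have ie2 : Integrable (fun t => (1 - ‖g t‖ ^ 2) * (⟪x, μ t x⟫_ℂ).re) ν := by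
    simp only [sub_mul, one_mul]
    exact (P0 x).1.sub ie
  obtain ⟨e, he⟩ : ∃ e, e = ∫ t, ‖g t‖ ^ 2 * (⟪x, μ t x⟫_ℂ).re ∂ν := ⟨_, rfl⟩
  have he2 : ∫ t, (1 - ‖g t‖ ^ 2) * (⟪x, μ t x⟫_ℂ).re ∂ν = 2 - e := by
    simp only [sub_mul, one_mul]
    rw [integral_sub (P0 x).1 ie, (P0 x).2, nx, he]; norm_num
  have e2 : e ≤ 2 := by linarith [integral_nonneg_of_ae ne]
  have qw : (fun t => (⟪w t, μ t (w t)⟫_ℂ).re) =ᵐ[ν] fun t =>
      κ ^ 2 * (‖g t‖ ^ 2 * (⟪x, μ t x⟫_ℂ).re) + -(2 * κ) * (⟪T x, (g t ^ 1 • μ t) x⟫_ℂ).re +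
        1 * (⟪T x, μ t (T x)⟫_ℂ).re := pos.mono fun t ht => by
    have : w t = (-(κ : ℂ) * g t) • x + T x := by rw [hw]; module
    simp only [this]
    rw [quad_add ht.1, quad_smul, map_smul, smul_apply, inner_smul_right, inner_smul_right, pow_one,
      norm_mul, norm_neg, norm_real, mul_pow, Real.norm_eq_abs, sq_abs, mul_assoc (-(κ : ℂ)),
      ← ofReal_neg, re_ofReal_mul]
    ring
  have iw : Integrable (fun t => (⟪w t, μ t (w t)⟫_ℂ).re) ν :=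
    (int3 ie (Pk 1 _ _).1 (P0 _).1 _ _ _).1.congr qw.symm
  have pw : 0 ≤ᵐ[ν] fun t => (⟪w t, μ t (w t)⟫_ℂ).re := pos.mono fun t ht => ht.2 _
  obtain ⟨ω, hω⟩ : ∃ ω, ω = ∫ t, (⟪w t, μ t (w t)⟫_ℂ).re ∂ν := ⟨_, rfl⟩
  have ω0 : 0 ≤ ω := hω ▸ integral_nonneg_of_ae pw
  have ω1 : ω = κ ^ 2 * e - 2 * κ * (κ ^ 2 + m 1) + 2 * κ ^ 2 := by
    rw [hω, integral_congr_ae qw, (int3 ie (Pk 1 _ _).1 (P0 _).1 _ _ _).2, (Pk 1 _ _).2, (P0 _).2,
      ← he, hm, pow_one, nsq, ofReal_re, nT]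
    ring
  have Nk : ∀ k : ℕ, Integrable (fun t => (⟪(T ^ (k + 1)) x, μ t (g t ^ k • w t)⟫_ℂ).re) ν ∧
      ∫ t, (⟪(T ^ (k + 1)) x, μ t (g t ^ k • w t)⟫_ℂ).re ∂ν =
        (1 - κ) * ‖(T ^ (k + 1)) x‖ ^ 2 + κ ^ 2 * m k - κ * m (k + 1) := fun k => by
    have e1 : ∀ t, (⟪(T ^ (k + 1)) x, μ t (g t ^ k • w t)⟫_ℂ).re =
        (⟪(T ^ (k + 1)) x, (g t ^ k • μ t) (T x)⟫_ℂ).re -
          κ * (⟪(T ^ (k + 1)) x, (g t ^ (k + 1) • μ t) x⟫_ℂ).re := fun t => by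
      rw [← re_ofReal_mul, ← sub_re, hw]
      simp only [map_smul, map_sub, smul_apply, inner_smul_right, inner_sub_right]
      refine congrArg _ ?_
      ring
    have e3 : (⟪G k ((T ^ (k + 1)) x), T x⟫_ℂ).re = κ ^ 2 * m k := by
      rw [pow_succ', mul_ap, ← mul_ap (G k) T, ← (cG k).eq, mul_ap, ← star_right, hx,
        inner_smul_right, re_ofReal_mul, hm]
    simp only [e1]
    refine ⟨(Pk _ _ _).1.sub ((Pk _ _ _).1.const_mul _), ?_⟩
    rw [integral_sub (Pk _ _ _).1 ((Pk _ _ _).1.const_mul _), integral_const_mul, (Pk _ _ _).2,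
      (Pk _ _ _).2, e3, ← hm, ← mul_ap, ← pow_succ, nsq, ofReal_re]
    ring
  have rec1 : ∀ k, 0 ≤ ω + 2 * (κ - 1) * (κ ^ 2 * m k - κ * m (k + 1)) := fun k => by
    have p : 0 ≤ᵐ[ν] fun t => 1 * (⟪w t, μ t (w t)⟫_ℂ).re +
        2 * (κ - 1) * (⟪(T ^ (k + 1)) x, μ t (g t ^ k • w t)⟫_ℂ).re +
        (κ - 1) ^ 2 * (⟪(T ^ (k + 1)) x, μ t ((T ^ (k + 1)) x)⟫_ℂ).re := pos.mono fun t ht => by
      have a := ht.2 (g t ^ k • w t + ((κ - 1 : ℝ) : ℂ) • (T ^ (k + 1)) x)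
      rw [quad_add ht.1, quad_smul, quad_smul, inner_smul_left, conj_ofReal, re_ofReal_mul,
        norm_real, Real.norm_eq_abs, sq_abs, norm_pow, ← pow_mul] at a
      have b := mul_le_of_le_one_left (ht.2 (w t)) (g1 t (k * 2))
      show 0 ≤ _
      linarith
    have := integral_nonneg_of_ae p
    rw [(int3 iw (Nk k).1 (P0 _).1 _ _ _).2, (Nk k).2, (P0 _).2, ← hω] at this
    linarith
  have C0 : 0 ≤ C := (norm_nonneg _).trans (bG 0)
  have mb : ∀ k, |m k| ≤ C * ‖T ^ k‖ := fun k => by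
    rw [hm]
    refine (abs_re_le_norm _).trans ((norm_inner_le_norm _ _).trans ?_)
    rw [nx, mul_one]
    refine ((G k).le_opNorm _).trans (mul_le_mul (bG k) ?_ (norm_nonneg _) C0)
    simpa only [nx, mul_one] using (T ^ k).le_opNorm x
  have rec2 : ∀ k, 2 * (κ - 1) ^ 2 * κ * m (k + 1) + ω ≤ κ * (2 * (κ - 1) ^ 2 * κ * m k + ω) :=
    fun k => by nlinarith [mul_nonneg (sub_nonneg.2 h1.le) (rec1 k)]
  have d0 := seq_nonneg (B := 2 * (κ - 1) ^ 2 * κ * (C * C)) h1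
    (d := fun k => 2 * (κ - 1) ^ 2 * κ * m k + ω) rec2 fun k => by
      have a := (abs_le.1 ((mb k).trans (mul_le_mul_of_nonneg_left (bT k) C0))).1
      have b : 0 ≤ 2 * (κ - 1) ^ 2 * κ := by positivity
      nlinarith [mul_le_mul_of_nonneg_left a b]
  refine ⟨?_, fun h2 lim => ?_⟩
  · by_contra hc
    have k2 : 2 < κ := not_le.1 hc
    have a := d0 1
    have s1 : 1 < (κ - 1) ^ 2 := by nlinarith
    have b : 2 * κ * m 1 = κ ^ 2 * e - 2 * κ ^ 3 + 2 * κ ^ 2 - ω := by linarith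
    have c : κ ^ 2 * e - 2 * κ ^ 3 + 2 * κ ^ 2 < 0 := by
      nlinarith [mul_pos (pow_pos (show 0 < κ by linarith) 2) (show 0 < 2 * κ - 2 - e by linarith)]
    have a2 : 0 ≤ (κ - 1) ^ 2 * (2 * κ * m 1) + ω := by linarith
    rw [b] at a2
    nlinarith [mul_nonneg (sub_nonneg.2 s1.le) ω0, mul_pos (zero_lt_one.trans s1) (neg_pos.2 c)]
  · subst h2
    have dz : ∀ k, 4 * m (k + 1) + ω = 0 := fun k => by
      induction k with
      | zero => have := d0 1; norm_num at this ⊢; linarith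
      | succ k ih =>
        have a := d0 (k + 1 + 1)
        have b := rec2 (k + 1)
        norm_num at a b
        linarith
    have ml : Tendsto (fun k => m (k + 1)) atTop (𝓝 0) := by
      refine squeeze_zero_norm (fun k => mb (k + 1)) ?_
      have := ((tendsto_add_atTop_iff_nat 1).2 lim).norm.const_mul C
      simpa using this
    have ωz : ω = 0 := by
      have a : Tendsto (fun k => 4 * m (k + 1) + ω) atTop (𝓝 (4 * 0 + ω)) :=
        (ml.const_mul 4).add_const ω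
      simp only [dz] at a
      have := tendsto_nhds_unique a tendsto_const_nhds
      linarith
    have wz : ∀ᵐ t ∂ν, μ t (w t) = 0 := by
      filter_upwards [(integral_eq_zero_iff_of_nonneg_ae pw iw).1 (hω ▸ ωz), pos] with t h3 h4
      exact pos_ker h4.1 h4.2 h3
    have ez := (integral_eq_zero_iff_of_nonneg_ae ne ie2).1 (by
      have := dz 0
      rw [he2]; norm_num at this; linarith)
    have T2 : T (T x) = 0 := by
      have a := (Nk 1).2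
      rw [integral_congr_ae (g := fun _ => 0) (wz.mono fun t ht => by
        simp only [map_smul, ht, smul_zero, inner_zero_right, zero_re]), integral_zero] at a
      have b := dz 0
      have c := dz 1
      norm_num at a b c
      have d : ‖T (T x)‖ ^ 2 = 0 := by linarith
      exact norm_eq_zero.1 (pow_eq_zero_iff two_ne_zero |>.1 d)
    refine ⟨x, (2 : ℂ)⁻¹ • T x, nx, by rw [smul_inv_smul₀ two_ne_zero], ?_,
      by rw [map_smul, T2, smul_zero], ?_⟩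
    · rw [map_smul, hx, smul_smul]
      norm_num
    · filter_upwards [wz, ez] with t h3 h4
      refine ⟨?_, h4⟩
      have : (2 : ℂ)⁻¹ • T x - g t • x = (2 : ℂ)⁻¹ • w t := by
        rw [hw]; push_cast; module
      rw [this, map_smul, h3, smul_zero]

end Pool.Agent.Lib.MP_7e554c_an.CZ
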