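import Pool.Agent.Lib.MP_7e554c_an.CZ.Cauchy
import Pool.Agent.Lib.MP_7e554c_an.CZ.LS

/-! The double layer potential. -/

open MeasureTheory Metric Set Filter Topology Complex Polynomial
open scoped InnerProductSpace ComplexConjugate Real

namespace Pool.Agent.Lib.MP_7e554c_an.CZ

set_option linter.unusedSectionVars false

variable {E : Type} [NormedAddCommGroup E] [InnerProductSpace ℂ E] [CompleteSpace E]
  [FiniteDimensional ℂ E]
  {Ω U : Set ℂ} {γ : ℝ → ℂ} {A T : Op E} {f : ℂ → ℂ} {x y : E}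

theorem inv_tpi : (2 * π * I : ℂ)⁻¹ = (((2 * π)⁻¹ : ℝ) : ℂ) * -I := by
  refine inv_eq_of_mul_eq_one_right ?_
  have : (π : ℂ) ≠ 0 := ofReal_ne_zero.2 Real.pi_ne_zero
  push_cast
  field_simp
  simp

theorem herm_re (c : ℂ) (B : Op E) (v : E) :
    (⟪v, ((2 * π * I : ℂ)⁻¹ • c • B + star ((2 * π * I : ℂ)⁻¹ • c • B)) v⟫_ℂ).re =
      π⁻¹ * (c * ⟪v, B v⟫_ℂ).im := by
  rw [add_apply, inner_add_right, star_right, add_re, ← inner_conj_symm _ v, conj_re, smul_apply,
    smul_apply, inner_smul_right, inner_smul_right, inv_tpi, mul_assoc, re_ofReal_mul, neg_mul,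
    neg_re, I_mul_re, neg_neg]
  ring

theorem Sit.core (S : Sit Ω U γ A f T) : ‖T‖ ≤ 2 ∧ (‖T‖ = 2 → ∃ x y, Ext γ A f T x y) := by
  have cR := (res_contOn A).mono S.res
  obtain ⟨M, hM⟩ : ∃ M : ℝ → Op E, ∀ t, M t = (2 * π * I : ℂ)⁻¹ • deriv γ t • resolvent A (γ t) :=
    ⟨_, fun _ => rfl⟩
  have iM : Integrable M (volume.restrict (Ioc 0 (2 * π))) := by
    rw [funext hM]
    exact Integrable.smul (2 * π * I : ℂ)⁻¹ (S.C.intg cR).1
  have bf : ∀ t, ‖f (γ t)‖ ≤ 1 := fun t => S.bf _ (S.D.frΩ (S.C.fr t))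
  have cf : Continuous fun t => f (γ t) := S.C.comp S.f_cont
  have iφ : ∀ φ : ℝ → ℂ, Continuous φ → (∀ t, ‖φ t‖ ≤ 1) →
      Integrable (fun t => φ t • M t) (volume.restrict (Ioc 0 (2 * π))) ∧
      ‖∫ t in Ioc 0 (2 * π), φ t • M t‖ ≤ ∫ t in Ioc 0 (2 * π), ‖M t‖ := fun φ c b =>
    ⟨iM.bdd_smul 1 c.aestronglyMeasurable (ae_of_all _ b),
      norm_integral_le_of_norm_le iM.norm (ae_of_all _ fun t => by
        rw [norm_smul]; exact mul_le_of_le_one_left (norm_nonneg _) (b t))⟩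
  have b1 : ∀ (k : ℕ) t, ‖f (γ t) ^ k‖ ≤ 1 := fun k t => by
    rw [norm_pow]; exact pow_le_one₀ (norm_nonneg _) (bf t)
  have b2 : ∀ (k : ℕ) t, ‖conj (f (γ t) ^ k)‖ ≤ 1 := fun k t => by
    rw [RCLike.norm_conj]; exact b1 k t
  have c2 : ∀ k : ℕ, Continuous fun t => conj (f (γ t) ^ k) := fun k =>
    continuous_conj.comp (cf.pow k)
  have hT : ∀ k : ℕ, ∫ t in Ioc 0 (2 * π), f (γ t) ^ k • M t = T ^ k := fun k => by
    have e := S.cauchy (S.R.pow k)
    rw [intervalIntegral.integral_of_le Real.two_pi_pos.le] at e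
    simp only [hM, smul_comm (f (γ _) ^ k), integral_smul, e]
    rw [inv_smul_smul₀ two_pi_I]
  have st : ∀ N : ℝ → Op E, Integrable N (volume.restrict (Ioc 0 (2 * π))) →
      Integrable (fun t => star (N t)) (volume.restrict (Ioc 0 (2 * π))) ∧
      ∫ t in Ioc 0 (2 * π), star (N t) = star (∫ t in Ioc 0 (2 * π), N t) := fun N i =>
    ⟨(starL' ℝ : Op E ≃L[ℝ] Op E).toContinuousLinearMap.integrable_comp i,
      (starL' ℝ : Op E ≃L[ℝ] Op E).integral_comp_comm N⟩
  have hn : ∀ k : ℕ, ∫ t in Ioc 0 (2 * π), f (γ t) ^ k • (M t + star (M t)) =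
      T ^ k + star (∫ t in Ioc 0 (2 * π), conj (f (γ t) ^ k) • M t) := fun k => by
    have e : ∀ t, f (γ t) ^ k • (M t + star (M t)) =
        f (γ t) ^ k • M t + star (conj (f (γ t) ^ k) • M t) := fun t => by
      rw [smul_add, star_smul, star_def, conj_conj]
    simp only [e]
    rw [integral_add (iφ (fun t => f (γ t) ^ k) (cf.pow k) (b1 k)).1 (st _ (iφ _ (c2 k) (b2 k)).1).1, hT,
      (st _ (iφ _ (c2 k) (b2 k)).1).2]
  have h0 : ∫ t in Ioc 0 (2 * π), (M t + star (M t)) = (2 : ℂ) • (1 : Op E) := by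
    have a := hn 0
    have b := hT 0
    simp only [pow_zero, one_smul, map_one] at a b
    rw [a, b, star_one, two_smul]
  have pos : ∀ᵐ t ∂(volume.restrict (Ioc 0 (2 * π))), star (M t + star (M t)) = M t + star (M t) ∧
      ∀ v : E, 0 ≤ (⟪v, (M t + star (M t)) v⟫_ℂ).re := by
    filter_upwards [ae_restrict_of_ae S.C.ae_diff] with t ht
    refine ⟨by rw [star_add, star_star, add_comm], fun v => ?_⟩
    rw [hM, herm_re]
    refine mul_nonneg (by positivity) ?_
    by_cases h : resolvent A (γ t) v = 0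
    · simp [h]
    obtain ⟨z, hz, e⟩ := nr_scale A h
    have e1 := congrArg (fun B : Op E => B v) (mul_res (S.res (S.C.fr t)))
    simp only [mul_ap, sh_ap, one_ap] at e1
    have e2 : ⟪v, resolvent A (γ t) v⟫_ℂ =
        ((‖resolvent A (γ t) v‖ ^ 2 : ℝ) : ℂ) * conj (γ t - z) := by
      conv_lhs => enter [2]; rw [← e1]
      rw [inner_sub_left, inner_smul_left, nsq, ← inner_conj_symm, e, map_mul, conj_ofReal, map_sub]
      ring
    have e3 := (S.C.left t ht).2 z (S.nr hz)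
    rw [e2, mul_left_comm, im_ofReal_mul]
    refine mul_nonneg (sq_nonneg _) (e3.trans (le_of_eq ?_))
    simp only [mul_im, conj_re, conj_im, sub_re, sub_im]
    ring
  have cG : ∀ k : ℕ, Commute T (∫ t in Ioc 0 (2 * π), conj (f (γ t) ^ k) • M t) := fun k => by
    have i := (iφ _ (c2 k) (b2 k)).1
    have a := (ContinuousLinearMap.mul ℂ (Op E) T).integral_comp_comm i
    have b := ((ContinuousLinearMap.mul ℂ (Op E)).flip T).integral_comp_comm i
    refine a.symm.trans (Eq.trans (integral_congr_ae (ae_of_all _ fun t => ?_)) b)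
    have c : Commute T (conj (f (γ t) ^ k) • M t) := by
      rw [hM]
      exact ((((res_comm S.R.cm _).symm).smul_right _).smul_right _).smul_right _
    exact c
  obtain ⟨k1, k2⟩ := ls (iM.add (st M iM).1) pos cf.aestronglyMeasurable bf h0 hn cG
    (fun k => (iφ _ (c2 k) (b2 k)).2) (fun k => hT k ▸ (iφ (fun t => f (γ t) ^ k) (cf.pow k) (b1 k)).2)
  refine ⟨k1, fun h => ?_⟩
  obtain ⟨x, y, h1, h2, h3, h4, h5⟩ := k2 h (pow_zero_lim (S.spec_lt (by linarith)))
  refine ⟨x, y, h1, h2, h3, h4, ?_⟩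
  filter_upwards [(ae_restrict_iff' measurableSet_Ioc).1 h5] with t ht hI
  obtain ⟨a, b⟩ := ht hI
  simp only [Pi.add_apply, hM] at a b
  refine ⟨?_, ?_⟩
  · have c : star (2 * π * I : ℂ)⁻¹ = -(2 * π * I : ℂ)⁻¹ := by simp
    rw [star_smul, star_smul, c, neg_smul, ← sub_eq_add_neg, ← smul_sub, smul_apply,
      smul_eq_zero_iff_right (inv_ne_zero two_pi_I), sub_apply, sub_eq_zero] at a
    exact a
  · rw [herm_re, mul_left_comm] at b
    exact (mul_eq_zero.1 b).resolve_left (inv_ne_zero Real.pi_ne_zero)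

end Pool.Agent.Lib.MP_7e554c_an.CZ
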