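import Pool.Agent.Lib.MP_7e554c_an.CZ.Defs

/-! The boundary curve of a convex body. -/

open MeasureTheory Metric Set Filter Topology Complex Polynomial
open scoped InnerProductSpace ComplexConjugate Real

namespace Pool.Agent.Lib.MP_7e554c_an.CZ

set_option linter.unusedSectionVars false

variable {E : Type} [NormedAddCommGroup E] [InnerProductSpace ℂ E] [CompleteSpace E]
  [FiniteDimensional ℂ E]
  {Ω U : Set ℂ} {γ : ℝ → ℂ} {A T : Op E} {f : ℂ → ℂ} {x y : E}

theorem exists_rho (cp : IsCompact Ω) (cv : Convex ℝ Ω) {c : ℂ} (hc : c ∈ interior Ω) :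
    ∃ (ρ : ℝ → ℝ) (R L : ℝ), (∀ t, 0 < ρ t ∧ ρ t ≤ R) ∧ (∀ s t, |ρ s - ρ t| ≤ L * |s - t|) ∧
      ρ (2 * π) = ρ 0 ∧ (∀ t, c + ρ t * circleMap 0 1 t ∈ frontier Ω) ∧
      ∀ z ∈ frontier Ω, ∃ t ∈ Icc 0 (2 * π), c + ρ t * circleMap 0 1 t = z := by
  set S : Set ℂ := Homeomorph.addLeft c ⁻¹' Ω with hS
  have cS : Convex ℝ S := cv.translate_preimage_right c
  have nS : S ∈ 𝓝 (0 : ℂ) := (Homeomorph.addLeft c).continuous.continuousAt.preimage_mem_nhds
    (by simpa using mem_interior_iff_mem_nhds.1 hc)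
  have fS : ∀ w, gauge S w = 1 ↔ c + w ∈ frontier Ω := fun w => by
    rw [gauge_eq_one_iff_mem_frontier cS nS, hS, ← Homeomorph.preimage_frontier]
    rfl
  obtain ⟨R, R0, hR⟩ := ((Homeomorph.addLeft c).isCompact_preimage.2 cp).isBounded.subset_closedBall_lt
    0 0
  obtain ⟨K, hK⟩ := cS.lipschitz_gauge nS
  have ne : ∀ t, ‖circleMap 0 1 t‖ = 1 := fun t => by simp
  have lo : ∀ t, R⁻¹ ≤ gauge S (circleMap 0 1 t) := fun t => by
    have := le_gauge_of_subset_closedBall (x := circleMap 0 1 t) (absorbent_nhds_zero nS) R0.le hR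
    rwa [ne, one_div] at this
  have g0 : ∀ t, 0 < gauge S (circleMap 0 1 t) := fun t => (inv_pos.2 R0).trans_le (lo t)
  have up : ∀ t, (gauge S (circleMap 0 1 t))⁻¹ ≤ R := fun t => inv_le_of_inv_le₀ R0 (lo t)
  have sm : ∀ (r : ℝ) (w : ℂ), 0 ≤ r → gauge S (r * w) = r * gauge S w := fun r w hr => by
    rw [← real_smul, gauge_smul_of_nonneg hr, smul_eq_mul]
  refine ⟨fun t => (gauge S (circleMap 0 1 t))⁻¹, R, R * R * K,
    fun t => ⟨inv_pos.2 (g0 t), up t⟩, fun s t => ?_, ?_, fun t => ?_, fun z hz => ?_⟩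
  · have d := (hK.comp (lipschitzWith_circleMap 0 1)).dist_le_mul s t
    simp only [Function.comp, Real.dist_eq, map_one, mul_one] at d
    rw [inv_sub_inv (g0 s).ne' (g0 t).ne', abs_div, abs_sub_comm, abs_of_pos (mul_pos (g0 s) (g0 t)),
      div_eq_mul_inv, mul_inv, mul_comm, mul_assoc (R * R)]
    exact mul_le_mul (mul_le_mul (up s) (up t) (inv_pos.2 (g0 t)).le R0.le) d (abs_nonneg _)
      (by positivity)
  · have := periodic_circleMap 0 1 0
    rw [zero_add] at this
    simp only [this]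
  · rw [← fS, sm _ _ (inv_pos.2 (g0 t)).le, inv_mul_cancel₀ (g0 t).ne']
  · have h1 : gauge S (z - c) = 1 := (fS _).2 (by rwa [add_sub_cancel])
    have h2 : z - c ≠ 0 := fun e => by rw [e, gauge_zero] at h1; exact zero_ne_one h1
    have h3 : 0 < ‖z - c‖ := norm_pos_iff.2 h2
    have h4 : ((‖z - c‖⁻¹ : ℝ) : ℂ) * (z - c) ∈ circleMap 0 1 '' Ioc 0 (2 * π) := by
      rw [image_circleMap_Ioc, mem_sphere_zero_iff_norm, norm_mul, norm_real, norm_inv, norm_norm,
        inv_mul_cancel₀ h3.ne', abs_one]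
    obtain ⟨t, ht, e⟩ := h4
    refine ⟨t, Ioc_subset_Icc_self ht, ?_⟩
    simp only [e]
    rw [sm _ _ (inv_pos.2 h3).le, h1, mul_one, inv_inv, ← mul_assoc, ← ofReal_mul,
      mul_inv_cancel₀ h3.ne', ofReal_one, one_mul, add_sub_cancel]

theorem left_of (cv : Convex ℝ Ω) {c p d e : ℂ} (hc : c ∈ interior Ω) (hp : p ∉ interior Ω)
    {r : ℝ} (r0 : 0 < r) (he : c + r * e = p) (hd : 0 < (d * conj e).im)
    (H : ∀ L : ℂ →L[ℝ] ℝ, (∀ a ∈ Ω, L a ≤ L p) → L d = 0) :
    ∀ z ∈ Ω, 0 ≤ (conj d * (z - p)).im := by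
  obtain ⟨L, L0, hL⟩ := geometric_hahn_banach_of_nonempty_interior_point cv hp ⟨c, hc⟩
  have Ld := H L hL
  have Le : 0 < L e := by
    have a1 : L c ≤ L p := hL c (interior_subset hc)
    have a2 : L p = L c + r * L e := by rw [← he, map_add, ← real_smul, map_smul, smul_eq_mul]
    have a3 : L c ≠ L p := fun h => by
      have m : IsLocalMax L c := by
        filter_upwards [mem_interior_iff_mem_nhds.1 hc] with a ha
        exact h ▸ hL a ha
      exact L0 (m.hasFDerivAt_eq_zero L.hasFDerivAt)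
    have a4 := lt_of_le_of_ne a1 a3
    exact (mul_pos_iff_of_pos_left r0).1 (by linarith)
  intro z hz
  have Lu : L (z - p) ≤ 0 := by rw [map_sub]; linarith [hL z hz]
  have id : (conj d * (z - p)).im • e + (conj (z - p) * e).im • d + (d * conj e).im • (z - p) = 0 := by
    apply Complex.ext <;> simp <;> ring
  have := congrArg L id
  simp only [map_add, map_smul, smul_eq_mul, Ld, map_zero] at this
  by_contra hn
  nlinarith [mul_pos (neg_pos.2 (not_le.1 hn)) Le, mul_nonneg hd.le (neg_nonneg.2 Lu)]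

theorem exists_crv (cp : IsCompact Ω) (cv : Convex ℝ Ω) (h : (interior Ω).Nonempty) :
    ∃ γ, Crv Ω γ := by
  obtain ⟨c, hc⟩ := h
  obtain ⟨ρ, R, L, h1, h2, h3, h4, h5⟩ := exists_rho cp cv hc
  have ne : ∀ t, ‖circleMap 0 1 t‖ = 1 := fun t => by simp
  have ee : ∀ t, circleMap 0 1 t * conj (circleMap 0 1 t) = 1 := fun t => by
    rw [mul_conj, normSq_eq_norm_sq, ne]; simp
  set γ : ℝ → ℂ := fun t => c + ρ t * circleMap 0 1 t with hγ
  have lip : LipschitzWith (Real.toNNReal (L + R)) γ := by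
    refine LipschitzWith.of_dist_le' fun s t => ?_
    have d := (lipschitzWith_circleMap 0 1).dist_le_mul s t
    simp only [map_one, NNReal.coe_one, one_mul, dist_eq_norm] at d
    have e : γ s - γ t = ((ρ s - ρ t : ℝ) : ℂ) * circleMap 0 1 s +
        ρ t * (circleMap 0 1 s - circleMap 0 1 t) := by simp only [hγ]; push_cast; ring
    rw [dist_eq_norm, e, add_mul, dist_eq_norm]
    refine (norm_add_le _ _).trans (add_le_add ?_ ?_)
    · rw [norm_mul, ne, mul_one, norm_real]
      exact h2 s t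
    · rw [norm_mul, norm_real, Real.norm_of_nonneg (h1 t).1.le]
      exact mul_le_mul (h1 t).2 d (norm_nonneg _) ((h1 t).1.le.trans (h1 t).2)
  have rho : ∀ t, (γ t - c) * conj (circleMap 0 1 t) = ρ t := fun t => by
    simp only [hγ]
    rw [add_sub_cancel_left, mul_assoc, ee, mul_one]
  have key : ∀ t, DifferentiableAt ℝ γ t → (deriv γ t * conj (circleMap 0 1 t)).im = ρ t ∧
      HasDerivAt ρ (deriv γ t * conj (circleMap 0 1 t)).re t := fun t ht => by
    have d1 := (ht.hasDerivAt.sub_const c).mul (hasDerivAt_circleMap 0 1 t).star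
    have e1 : (γ t - c) * star (circleMap 0 1 t * I) = -(ρ t * I) := by
      rw [star_mul', ← mul_assoc]
      show (γ t - c) * conj (circleMap 0 1 t) * conj I = _
      rw [rho, conj_I, mul_neg]
    rw [e1] at d1
    have d2 : HasDerivAt (fun t => ((ρ t : ℝ) : ℂ))
        (deriv γ t * conj (circleMap 0 1 t) + -(ρ t * I)) t :=
      d1.congr_of_eventuallyEq (Eventually.of_forall fun s => (rho s).symm)
    have d3 := imCLM.hasFDerivAt.comp_hasDerivAt t d2
    have d4 := reCLM.hasFDerivAt.comp_hasDerivAt t d2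
    have d5 : HasDerivAt (⇑imCLM ∘ fun t => ((ρ t : ℝ) : ℂ)) 0 t := by
      have : (⇑imCLM ∘ fun t => ((ρ t : ℝ) : ℂ)) = fun _ => 0 := by ext s; simp
      rw [this]; exact hasDerivAt_const _ _
    have e2 := d3.unique d5
    refine ⟨?_, ?_⟩
    · simp only [imCLM_apply, add_im, neg_im, mul_I_im, ofReal_re] at e2
      linarith
    · have e3 : (⇑reCLM ∘ fun t => ((ρ t : ℝ) : ℂ)) = ρ := by ext s; simp
      rw [e3] at d4
      simpa only [reCLM_apply, add_re, neg_re, mul_I_re, ofReal_im, neg_zero, add_zero] using d4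
  refine ⟨γ, ⟨_, lip⟩, ?_, h4, h5, fun z => ?_, fun t ht => ⟨fun e => ?_, ?_⟩, c, hc, ?_⟩
  · have := periodic_circleMap 0 1 0
    rw [zero_add] at this
    simp only [hγ, this, h3]
  · refine ((countable_singleton (((‖z - c‖⁻¹ : ℝ) : ℂ) * (z - c))).preimage_circleMap 0
      one_ne_zero).mono fun t ht => ?_
    have e : z - c = ρ t * circleMap 0 1 t := by rw [← (ht : γ t = z)]; simp only [hγ]; ring
    rw [mem_preimage, mem_singleton_iff, e, norm_mul, ne, mul_one, norm_real,
      Real.norm_of_nonneg (h1 t).1.le, ← mul_assoc, ← ofReal_mul, inv_mul_cancel₀ (h1 t).1.ne',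
      ofReal_one, one_mul]
  · have := (key t ht).1
    rw [e, zero_mul, zero_im] at this
    exact (h1 t).1.ne this
  · refine left_of cv hc (h4 t).2 (h1 t).1 rfl ((key t ht).1 ▸ (h1 t).1) fun M hM => ?_
    have m : IsLocalMax (⇑M ∘ γ) t :=
      Eventually.of_forall fun s => hM _ (cp.isClosed.frontier_subset (h4 s))
    exact m.hasDerivAt_eq_zero (M.hasFDerivAt.comp_hasDerivAt t ht.hasDerivAt)
  · have lρ : LipschitzWith (Real.toNNReal L) ρ := LipschitzWith.of_dist_le' h2
    have ll : LocallyLipschitzOn (Icc 0 (2 * π)) fun t => Real.log (ρ t) := fun t _ => by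
      obtain ⟨J, s, hs, hJ⟩ :=
        ((Real.contDiffAt_log (n := 1)).2 (h1 t).1.ne').exists_lipschitzOnWith
      exact ⟨J * _, ρ ⁻¹' s, mem_nhdsWithin_of_mem_nhds (lρ.continuous.continuousAt hs),
        hJ.comp lρ.lipschitzOnWith (mapsTo_preimage _ _)⟩
    obtain ⟨J, hJ⟩ := ll.exists_lipschitzOnWith_of_compact isCompact_Icc
    rw [← uIcc_of_le Real.two_pi_pos.le] at hJ
    have ac := hJ.absolutelyContinuousOnInterval
    have i0 := ac.integral_deriv_eq_sub
    rw [h3, sub_self] at i0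
    have e : ∀ᵐ t, t ∈ uIoc 0 (2 * π) → deriv γ t * (γ t - c)⁻¹ =
        ((deriv (fun t => Real.log (ρ t)) t : ℝ) : ℂ) + I := by
      filter_upwards [lip.ae_differentiableAt_real] with t ht _
      obtain ⟨k1, k2⟩ := key t ht
      have r0 : (ρ t : ℂ) ≠ 0 := ofReal_ne_zero.2 (h1 t).1.ne'
      have k3 : (γ t - c)⁻¹ = conj (circleMap 0 1 t) / ρ t := by
        refine inv_eq_of_mul_eq_one_right ?_
        rw [← mul_div_assoc, rho, div_self r0]
      rw [(k2.log (h1 t).1.ne').deriv, k3, ← mul_div_assoc,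
        ← re_add_im (deriv γ t * conj (circleMap 0 1 t)), k1, add_div, mul_div_cancel_left₀ _ r0]
      simp
    have i1 : IntervalIntegrable (fun t => ((deriv (fun t => Real.log (ρ t)) t : ℝ) : ℂ)) volume
        0 (2 * π) := ⟨ac.intervalIntegrable_deriv.1.ofReal, ac.intervalIntegrable_deriv.2.ofReal⟩
    rw [intervalIntegral.integral_congr_ae e, intervalIntegral.integral_add
      i1 intervalIntegrable_const, intervalIntegral.integral_ofReal,
      i0]
    simp

end Pool.Agent.Lib.MP_7e554c_an.CZ
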