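import Mathlib

/-! Vocabulary for the equality case of the numerical range bounds. -/

open MeasureTheory Metric Set Filter Topology Complex Polynomial
open scoped InnerProductSpace ComplexConjugate Real

namespace Pool.Agent.Lib.MP_7e554c_an.CZ

set_option linter.unusedSectionVars false

/-- Operators on a Hilbert space. -/
abbrev Op (E : Type) [NormedAddCommGroup E] [InnerProductSpace ℂ E] : Type := E →L[ℂ] E

variable {E : Type} [NormedAddCommGroup E] [InnerProductSpace ℂ E] [CompleteSpace E]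
  [FiniteDimensional ℂ E]

/-- The numerical range. -/
def NR (A : Op E) : Set ℂ := {z | ∃ x : E, ‖x‖ = 1 ∧ ⟪x, A x⟫_ℂ = z}

/-- `T` is the value of `f` at `A`. -/
structure Rep (U : Set ℂ) (A : Op E) (f : ℂ → ℂ) (T : Op E) : Prop where
  df : DifferentiableOn ℂ f U
  cm : Commute A T
  ex : ∃ K : ℂ → Op E, DifferentiableOn ℂ K U ∧ ∀ z ∈ U, Commute A (K z) ∧
    f z • (1 : Op E) - T = (z • (1 : Op E) - A) * K z

/-- A compact convex set inside an open convex set. -/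
structure Dom (Ω U : Set ℂ) : Prop where
  cp : IsCompact Ω
  cv : Convex ℝ Ω
  oU : IsOpen U
  cU : Convex ℝ U
  sub : Ω ⊆ U

/-- A positively oriented Lipschitz parametrisation of the boundary. -/
structure Crv (Ω : Set ℂ) (γ : ℝ → ℂ) : Prop where
  lip : ∃ K, LipschitzWith K γ
  per : γ (2 * π) = γ 0
  fr : ∀ t, γ t ∈ frontier Ω
  sj : ∀ z ∈ frontier Ω, ∃ t ∈ Icc 0 (2 * π), γ t = z
  cnt : ∀ z, {t | γ t = z}.Countable
  left : ∀ t, DifferentiableAt ℝ γ t →
    deriv γ t ≠ 0 ∧ ∀ z ∈ Ω, 0 ≤ (conj (deriv γ t) * (z - γ t)).im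
  wind : ∃ c ∈ interior Ω, ∫ t in (0 : ℝ)..2 * π, deriv γ t * (γ t - c)⁻¹ = 2 * π * I

/-- The data of the equality case. -/
structure Ext (γ : ℝ → ℂ) (A : Op E) (f : ℂ → ℂ) (T : Op E) (x y : E) : Prop where
  nx : ‖x‖ = 1
  Tx : T x = (2 : ℂ) • y
  Ty : star T y = (2 : ℂ) • x
  T0 : T y = 0
  ae : ∀ᵐ t, t ∈ Ioc 0 (2 * π) →
    deriv γ t • resolvent A (γ t) (y - f (γ t) • x) =
      conj (deriv γ t) • star (resolvent A (γ t)) (y - f (γ t) • x) ∧
    (1 - ‖f (γ t)‖ ^ 2) * (deriv γ t * ⟪x, resolvent A (γ t) x⟫_ℂ).im = 0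

/-- The standing assumptions once the spectrum is inside. -/
structure Sit (Ω U : Set ℂ) (γ : ℝ → ℂ) (A : Op E) (f : ℂ → ℂ) (T : Op E) : Prop where
  D : Dom Ω U
  C : Crv Ω γ
  nr : NR A ⊆ Ω
  sp : spectrum ℂ A ⊆ interior Ω
  R : Rep U A f T
  bf : ∀ z ∈ Ω, ‖f z‖ ≤ 1

/-- The diagonal entry of the resolvent. -/
noncomputable def aa (A : Op E) (x : E) (z : ℂ) : ℂ := ⟪x, resolvent A z x⟫_ℂ

/-- `Ω` is a disc, `f` has modulus one on its circle and modulus `ρ` at its centre. -/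
def Disc (Ω : Set ℂ) (f : ℂ → ℂ) (ρ : ℝ) : Prop :=
  ∃ (m : ℂ) (r : ℝ), 0 < r ∧ Ω = closedBall m r ∧ ‖f m‖ = ρ ∧ ∀ z ∈ sphere m r, ‖f z‖ = 1

theorem star_left (A : Op E) (x y : E) : ⟪star A x, y⟫_ℂ = ⟪x, A y⟫_ℂ :=
  ContinuousLinearMap.adjoint_inner_left A y x

theorem star_right (A : Op E) (x y : E) : ⟪x, star A y⟫_ℂ = ⟪A x, y⟫_ℂ :=
  ContinuousLinearMap.adjoint_inner_right A x y

theorem nsq (v : E) : ⟪v, v⟫_ℂ = ((‖v‖ ^ 2 : ℝ) : ℂ) := by
  rw [inner_self_eq_norm_sq_to_K]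
  norm_cast

theorem mul_ap (A B : Op E) (v : E) : (A * B) v = A (B v) := rfl

theorem one_ap (v : E) : (1 : Op E) v = v := rfl

theorem sh_ap (A : Op E) (z : ℂ) (v : E) : (z • (1 : Op E) - A) v = z • v - A v := rfl

theorem res_mul {A : Op E} {z : ℂ} (h : z ∈ resolventSet ℂ A) :
    resolvent A z * (z • (1 : Op E) - A) = 1 := by
  rw [← Algebra.algebraMap_eq_smul_one]
  exact Ring.inverse_mul_cancel _ h

theorem mul_res {A : Op E} {z : ℂ} (h : z ∈ resolventSet ℂ A) :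
    (z • (1 : Op E) - A) * resolvent A z = 1 := by
  rw [← Algebra.algebraMap_eq_smul_one]
  exact Ring.mul_inverse_cancel _ h

theorem res_comm {A B : Op E} (h : Commute A B) (z : ℂ) : Commute (resolvent A z) B := by
  have h1 : Commute (algebraMap ℂ (Op E) z - A) B := Commute.sub_left (Algebra.commutes z B) h
  by_cases hz : IsUnit (algebraMap ℂ (Op E) z - A)
  · obtain ⟨u, hu⟩ := hz
    rw [resolvent, ← hu, Ring.inverse_unit]
    exact Commute.units_inv_left (hu ▸ h1)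
  · rw [resolvent, Ring.inverse_non_unit _ hz]
    exact Commute.zero_left B

theorem res_contOn (A : Op E) : ContinuousOn (resolvent A : ℂ → Op E) (resolventSet ℂ A) :=
  fun _ hz => (spectrum.hasDerivAt_resolvent_const_left hz).continuousAt.continuousWithinAt

section
variable {Ω U : Set ℂ} {γ : ℝ → ℂ} {A T : Op E} {f : ℂ → ℂ}

theorem Dom.frΩ (D : Dom Ω U) : frontier Ω ⊆ Ω := D.cp.isClosed.frontier_subset

theorem Dom.frU (D : Dom Ω U) : frontier Ω ⊆ U := D.frΩ.trans D.sub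

theorem Sit.res (S : Sit Ω U γ A f T) : frontier Ω ⊆ resolventSet ℂ A := fun _ hz => by
  by_contra h
  exact hz.2 (S.sp h)

theorem Sit.aa_cont (S : Sit Ω U γ A f T) (x : E) : ContinuousOn (aa A x) (frontier Ω) :=
  ContinuousOn.inner continuousOn_const (((res_contOn A).mono S.res).clm_apply continuousOn_const)

theorem Sit.f_cont (S : Sit Ω U γ A f T) : ContinuousOn f (frontier Ω) :=
  S.R.df.continuousOn.mono S.D.frU

end

end Pool.Agent.Lib.MP_7e554c_an.CZ
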