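import Pool.Agent.Lib.MP_7e554c_an.CZ.Defs

/-! Division of holomorphic functions by polynomials. -/

open MeasureTheory Metric Set Filter Topology Complex Polynomial
open scoped InnerProductSpace ComplexConjugate Real

namespace Pool.Agent.Lib.MP_7e554c_an.CZ

set_option linter.unusedSectionVars false

variable {E : Type} [NormedAddCommGroup E] [InnerProductSpace ℂ E] [CompleteSpace E]
  [FiniteDimensional ℂ E]
  {Ω U : Set ℂ} {γ : ℝ → ℂ} {A T : Op E} {f : ℂ → ℂ} {x y : E}

theorem div_exists (oU : IsOpen U) {D : ℂ[X]} (hD : D.Monic) (hr : ∀ z, D.IsRoot z → z ∈ U)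
    (hf : DifferentiableOn ℂ f U) : ∃ (p : ℂ[X]) (k : ℂ → ℂ), DifferentiableOn ℂ k U ∧
      ∀ z ∈ U, f z = p.eval z + D.eval z * k z := by
  induction hn : D.natDegree generalizing D f with
  | zero =>
    rw [hD.natDegree_eq_zero] at hn
    exact ⟨0, f, hf, fun z _ => by simp [hn]⟩
  | succ k ih =>
    obtain ⟨a, ha⟩ := IsAlgClosed.exists_root D (by
      rw [degree_eq_natDegree hD.ne_zero, hn]; exact_mod_cast k.succ_ne_zero)
    obtain ⟨Q, hQ⟩ := dvd_iff_isRoot.2 ha
    have mQ : Q.Monic := (monic_X_sub_C a).of_mul_monic_left (hQ ▸ hD)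
    have dQ : Q.natDegree = k := by
      rw [hQ, (monic_X_sub_C a).natDegree_mul mQ, natDegree_X_sub_C] at hn
      omega
    obtain ⟨p, g, dg, hg⟩ := ih mQ (fun z hz => hr z (by rw [hQ]; exact root_mul_left_of_isRoot _ hz))
      ((differentiableOn_dslope (oU.mem_nhds (hr a ha))).2 hf) dQ
    refine ⟨C (f a) + (X - C a) * p, g, dg, fun z hz => ?_⟩
    have e := sub_smul_dslope f a z
    rw [hg z hz, smul_eq_mul] at e
    rw [hQ]
    simp only [eval_add, eval_mul, eval_sub, eval_C, eval_X]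
    linear_combination -e

theorem div_dvd (oU : IsOpen U) {D : ℂ[X]} (hD : D.Monic) (hr : ∀ z, D.IsRoot z → z ∈ U)
    {q : ℂ[X]} {k : ℂ → ℂ} (hk : DifferentiableOn ℂ k U)
    (h : ∀ z ∈ U, q.eval z = D.eval z * k z) : D ∣ q := by
  induction hn : D.natDegree generalizing D q with
  | zero =>
    rw [hD.natDegree_eq_zero] at hn
    rw [hn]; exact one_dvd q
  | succ n ih =>
    obtain ⟨a, ha⟩ := IsAlgClosed.exists_root D (by
      rw [degree_eq_natDegree hD.ne_zero, hn]; exact_mod_cast n.succ_ne_zero)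
    obtain ⟨Q, hQ⟩ := dvd_iff_isRoot.2 ha
    have mQ : Q.Monic := (monic_X_sub_C a).of_mul_monic_left (hQ ▸ hD)
    have dQ : Q.natDegree = n := by
      rw [hQ, (monic_X_sub_C a).natDegree_mul mQ, natDegree_X_sub_C] at hn
      omega
    have aU := hr a ha
    obtain ⟨p, rfl⟩ := dvd_iff_isRoot.2 (show q.IsRoot a by rw [IsRoot.def, h a aU, ha, zero_mul])
    have h1 : ∀ z ∈ U, z ≠ a → p.eval z = Q.eval z * k z := fun z hz hne => by
      have e := h z hz
      rw [hQ] at e
      simp only [eval_mul, eval_sub, eval_C, eval_X, mul_assoc] at e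
      exact mul_left_cancel₀ (sub_ne_zero.2 hne) e
    rw [hQ]
    refine mul_dvd_mul_left _ (ih mQ
      (fun z hz => hr z (by rw [hQ]; exact root_mul_left_of_isRoot _ hz)) (fun z hz => ?_) dQ)
    by_cases hne : z = a
    · subst hne
      have c1 : ContinuousAt (fun w => p.eval w) z := p.continuous.continuousAt
      have c2 : ContinuousAt (fun w => Q.eval w * k w) z :=
        Q.continuous.continuousAt.mul (hk.differentiableAt (oU.mem_nhds hz)).continuousAt
      refine tendsto_nhds_unique_of_eventuallyEq (l := 𝓝[≠] z) (c1.tendsto.mono_left nhdsWithin_le_nhds)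
        (c2.tendsto.mono_left nhdsWithin_le_nhds) ?_
      filter_upwards [mem_nhdsWithin_of_mem_nhds (oU.mem_nhds hz), self_mem_nhdsWithin] with w h2 h3
      exact h1 w h2 h3
    · exact h1 z hz hne

end Pool.Agent.Lib.MP_7e554c_an.CZ
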