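import Pool.Agent.Lib.MP_7e554c_an.CZ.Cauchy

/-! The scalar identities of the equality case. -/

open MeasureTheory Metric Set Filter Topology Complex Polynomial
open scoped InnerProductSpace ComplexConjugate Real

namespace Pool.Agent.Lib.MP_7e554c_an.CZ

set_option linter.unusedSectionVars false

variable {E : Type} [NormedAddCommGroup E] [InnerProductSpace ℂ E] [CompleteSpace E]
  [FiniteDimensional ℂ E]
  {Ω U : Set ℂ} {γ : ℝ → ℂ} {A T : Op E} {f : ℂ → ℂ} {x y : E}

theorem Ext.xy (S : Sit Ω U γ A f T) (e : Ext γ A f T x y) (z : ℂ) :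
    ⟪x, resolvent A z y⟫_ℂ = 0 ∧ ⟪y, resolvent A z y⟫_ℂ = aa A x z := by
  have c : ∀ v, resolvent A z (T v) = T (resolvent A z v) := fun v => by
    rw [← mul_ap, (res_comm S.R.cm z).eq, mul_ap]
  constructor
  · have a := star_left T y (resolvent A z y)
    rw [e.Ty, ← c, e.T0, map_zero, inner_zero_right, inner_smul_left] at a
    exact (mul_eq_zero.1 a).resolve_left (by simp)
  · have a := star_left T y (resolvent A z x)
    rw [e.Ty, ← c, e.Tx, map_smul, inner_smul_left, inner_smul_right, map_ofNat] at a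
    exact (mul_left_cancel₀ two_ne_zero a).symm

theorem Ext.holo (S : Sit Ω U γ A f T) (e : Ext γ A f T x y) :
    ∃ h k : ℂ → ℂ, DifferentiableOn ℂ h U ∧ DifferentiableOn ℂ k U ∧ ∀ z ∈ frontier Ω,
      f z * ⟪y, resolvent A z x⟫_ℂ = 2 * aa A x z + h z ∧ f z * aa A x z = k z := by
  obtain ⟨K, k1, k2⟩ := S.R.ex
  have d : ∀ v : E, DifferentiableOn ℂ (fun z => ⟪v, K z x⟫_ℂ) U := fun v =>
    (innerSL ℂ v).differentiable.comp_differentiableOn
      (k1.clm_apply (differentiableOn_const x))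
  refine ⟨_, _, d y, d x, fun z hz => ?_⟩
  have e1 := congrArg (fun M => (resolvent A z * M) x) (k2 _ (S.D.frU hz)).2
  simp only [← mul_assoc, res_mul (S.res hz), one_mul] at e1
  rw [mul_ap, sh_ap, map_sub, map_smul, e.Tx, map_smul] at e1
  obtain ⟨a, b⟩ := e.xy S z
  rw [← e1, inner_sub_right, inner_sub_right, inner_smul_right, inner_smul_right, inner_smul_right,
    inner_smul_right, a, b, aa]
  exact ⟨by ring, by ring⟩

theorem Sit.real_form (S : Sit Ω U γ A f T) {h : ℂ → ℂ} (dh : DifferentiableOn ℂ h U)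
    (hr : ∀ᵐ t, t ∈ Ioc 0 (2 * π) → (deriv γ t * h (γ t)).im = 0) : ∀ z ∈ U, h z = 0 := by
  obtain ⟨Φ, hΦ⟩ := S.D.cU.exists_forall_hasDerivWithinAt dh
  have d : ∀ z ∈ U, HasDerivAt Φ (h z) z := fun z hz => (hΦ z hz).hasDerivAt (S.D.oU.mem_nhds hz)
  obtain ⟨c, hc⟩ := S.C.im_const S.D.oU S.D.frU d hr
  have dΦ : DifferentiableOn ℂ Φ U := fun z hz => (d z hz).differentiableAt.differentiableWithinAt
  have mx : ∀ s : ℝ, ∀ z ∈ Ω, s * (Φ z).im ≤ s * c := fun s z hz => by
    have dd : DiffContOnCl ℂ (fun z => cexp (-(s * I) * Φ z)) Ω := by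
      refine DifferentiableOn.diffContOnCl ?_
      rw [S.D.cp.isClosed.closure_eq]
      exact ((dΦ.mono S.D.sub).const_mul _).cexp
    have := Complex.norm_le_of_forall_mem_frontier_norm_le S.D.cp.isBounded dd
      (C := Real.exp (s * c)) (fun w hw => by rw [norm_exp, ← hc w hw]; simp) (subset_closure hz)
    rw [norm_exp, Real.exp_le_exp] at this
    simpa using this
  have ci : ∀ z ∈ interior Ω, (Φ z).im = c := fun z hz => by
    linarith [mx 1 z (interior_subset hz), mx (-1) z (interior_subset hz)]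
  obtain ⟨c0, hc0, -⟩ := S.C.wind
  have sU : interior Ω ⊆ U := interior_subset.trans S.D.sub
  obtain ⟨q, hq⟩ := ((dΦ.mono sU).analyticOnNhd isOpen_interior).eq_const_of_im_eq_const ci
    isOpen_interior ⟨⟨c0, hc0⟩, S.D.cv.interior.isPreconnected⟩
  refine S.D.ident dh (differentiableOn_const 0)
    (infinite_of_mem_nhds c0 (isOpen_interior.mem_nhds hc0)) interior_subset fun z hz => ?_
  refine (d z (sU hz)).unique ((hasDerivAt_const z q).congr_of_eventuallyEq ?_)
  filter_upwards [isOpen_interior.mem_nhds hz] with w hw using hq w hw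

theorem Ext.step3 (S : Sit Ω U γ A f T) (e : Ext γ A f T x y) :
    (∀ z ∈ frontier Ω, f z * ⟪y, resolvent A z x⟫_ℂ = 2 * aa A x z) ∧
      ∀ᵐ t, t ∈ Ioc 0 (2 * π) → (deriv γ t * aa A x (γ t)).re = 0 := by
  obtain ⟨h, k, dh, -, hh⟩ := e.holo S
  have key : ∀ᵐ t, t ∈ Ioc 0 (2 * π) → deriv γ t * h (γ t) =
      -(deriv γ t * aa A x (γ t) + conj (deriv γ t * aa A x (γ t))) := by
    filter_upwards [e.ae] with t ht hI
    have a := congrArg (fun v => ⟪y, v⟫_ℂ) (ht hI).1
    obtain ⟨b1, b2⟩ := e.xy S (γ t)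
    simp only [inner_smul_right, star_right, map_sub, map_smul, inner_sub_right] at a
    rw [← inner_conj_symm (resolvent A (γ t) y) y, ← inner_conj_symm (resolvent A (γ t) y) x, b1,
      b2, (hh _ (S.C.fr t)).1] at a
    rw [map_mul]
    simp only [map_zero] at a
    linear_combination -a
  have h0 := S.real_form dh (key.mono fun t ht hI => by rw [ht hI, add_conj, neg_im, ofReal_im, neg_zero])
  refine ⟨fun z hz => by rw [(hh z hz).1, h0 z (S.D.frU hz), add_zero], ?_⟩
  filter_upwards [key] with t ht hI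
  have a := ht hI
  rw [h0 _ (S.D.frU (S.C.fr t)), mul_zero, add_conj, zero_eq_neg, ofReal_eq_zero] at a
  linarith

end Pool.Agent.Lib.MP_7e554c_an.CZ
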