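import Pool.Agent.Lib.MP_7e554c_an.CZ.Eq3

/-! The chord identity. -/

open MeasureTheory Metric Set Filter Topology Complex Polynomial
open scoped InnerProductSpace ComplexConjugate Real

namespace Pool.Agent.Lib.MP_7e554c_an.CZ

set_option linter.unusedSectionVars false

variable {E : Type} [NormedAddCommGroup E] [InnerProductSpace ℂ E] [CompleteSpace E]
  [FiniteDimensional ℂ E]
  {Ω U : Set ℂ} {γ : ℝ → ℂ} {A T : Op E} {f : ℂ → ℂ} {x y : E}

theorem Ext.step4 (S : Sit Ω U γ A f T) (e : Ext γ A f T x y) : ∀ z ∈ frontier Ω,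
    conj (aa A x z) • star (z • (1 : Op E) - A) (resolvent A z (y - f z • x)) =
      -(aa A x z) • (y - f z • x) := by
  have cv : ContinuousOn (fun z => y - f z • x) (frontier Ω) :=
    continuousOn_const.sub (S.f_cont.smul continuousOn_const)
  have cs : Continuous fun z : ℂ => star (z • (1 : Op E) - A) :=
    ((continuous_id.smul continuous_const).sub continuous_const).star
  have k := S.C.closed (p := fun z => conj (aa A x z) • star (z • (1 : Op E) - A)
      (resolvent A z (y - f z • x)) + aa A x z • (y - f z • x))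
    (((continuous_conj.comp_continuousOn (S.aa_cont x)).smul (cs.continuousOn.clm_apply
      (((res_contOn A).mono S.res).clm_apply cv))).add ((S.aa_cont x).smul cv)) ?_
  · intro z hz
    rw [neg_smul]
    exact eq_neg_of_add_eq_zero_left (k z hz)
  filter_upwards [e.ae, (e.step3 S).2, S.C.ae_diff] with t h1 h2 h3 hI
  have a := congrArg (fun v => star (γ t • (1 : Op E) - A) v) (h1 hI).1
  beta_reduce at a
  rw [map_smul, map_smul, ← mul_ap _ (star (resolvent A (γ t))), ← star_mul,
    res_mul (S.res (S.C.fr t)), star_one, one_ap] at a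
  have b : conj (aa A x (γ t)) * conj (deriv γ t) + deriv γ t * aa A x (γ t) = 0 := by
    rw [← map_mul, mul_comm (aa A x (γ t)), add_comm, add_conj, h2 hI, mul_zero, ofReal_zero]
  refine (smul_eq_zero_iff_right (S.C.left t h3).1).1 ?_
  rw [smul_add, smul_comm, a, smul_smul, smul_smul, ← add_smul, b, zero_smul]

theorem Ext.pair (S : Sit Ω U γ A f T) (e : Ext γ A f T x y) {s : ℂ} (hs : s ∈ frontier Ω) (t : ℂ) :
    ⟪y - f t • x, resolvent A s (y - f s • x)⟫_ℂ = aa A x s * (f s * conj (f t) - 1) := by
  obtain ⟨a, b⟩ := e.xy S s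
  simp only [map_sub, map_smul, inner_sub_left, inner_sub_right, inner_smul_left, inner_smul_right]
  rw [a, b]
  have c := (e.step3 S).1 s hs
  rw [aa] at c ⊢
  linear_combination -c

theorem Ext.one (S : Sit Ω U γ A f T) (e : Ext γ A f T x y) {s t : ℂ} (hs : s ∈ frontier Ω)
    (ht : t ∈ frontier Ω) : conj (aa A x s) * conj (s - t) *
      ⟪resolvent A t (y - f t • x), resolvent A s (y - f s • x)⟫_ℂ =
      -aa A x s * (f s * conj (f t) - 1) * (conj (aa A x s) + conj (aa A x t)) := by
  have a := congrArg (fun v => ⟪resolvent A t (y - f t • x), v⟫_ℂ) (e.step4 S s hs)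
  have b : (s • (1 : Op E) - A) (resolvent A t (y - f t • x)) =
      (s - t) • resolvent A t (y - f t • x) + (y - f t • x) := by
    have c := congrArg (fun B : Op E => B (y - f t • x)) (mul_res (S.res ht))
    simp only [mul_ap, sh_ap, one_ap] at c
    rw [sh_ap, sub_smul]
    linear_combination (norm := module) c
  simp only [inner_smul_right, star_right] at a
  rw [b, inner_add_left, inner_smul_left, e.pair S hs, ← inner_conj_symm _ (y - f s • x),
    e.pair S ht, map_mul, map_sub (starRingEnd ℂ) _ 1, map_mul, conj_conj, map_one] at a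
  linear_combination a

theorem Ext.chord0 (S : Sit Ω U γ A f T) (e : Ext γ A f T x y) :
    ∀ s ∈ frontier Ω, ∀ t ∈ frontier Ω, f s * conj (f t) ≠ 1 →
      (aa A x s * aa A x t * (s - t) * conj (aa A x s + aa A x t)).re = 0 := by
  intro s hs t ht hF
  have a := e.one S hs ht
  have b := congrArg conj (e.one S ht hs)
  simp only [map_mul, map_sub, map_add, map_neg, map_one, conj_conj, inner_conj_symm] at a b
  have c : (f s * conj (f t) - 1) *
      (aa A x s * aa A x t * (s - t) * conj (aa A x s + aa A x t) +
        conj (aa A x s * aa A x t * (s - t) * conj (aa A x s + aa A x t))) = 0 := by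
    simp only [map_mul, map_sub, map_add, conj_conj]
    linear_combination (aa A x t * (s - t)) * a + (conj (aa A x s) * (conj s - conj t)) * b
  have d := (mul_eq_zero.1 c).resolve_left (sub_ne_zero.2 hF)
  rw [add_conj, ofReal_eq_zero] at d
  linarith

theorem Ext.chord (S : Sit Ω U γ A f T) (e : Ext γ A f T x y) (h : 1 < ‖T‖) :
    ∀ s ∈ frontier Ω, ∀ t ∈ frontier Ω,
      (aa A x s * aa A x t * (s - t) * conj (aa A x s + aa A x t)).re = 0 := by
  intro s hs t ht
  have c := S.aa_cont x
  have cp : ContinuousOn (fun s => (((aa A x s * aa A x t * (s - t) *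
      conj (aa A x s + aa A x t)).re : ℝ) : ℂ)) (frontier Ω) :=
    continuous_ofReal.comp_continuousOn (continuous_re.comp_continuousOn
      (((c.mul continuousOn_const).mul (continuousOn_id.sub continuousOn_const)).mul
        (continuous_conj.comp_continuousOn (c.add continuousOn_const))))
  refine ofReal_eq_zero.1 (S.C.closed_fin cp (S.nonconst h (conj (f t))⁻¹) (fun z hz hF => ?_) s hs)
  exact ofReal_eq_zero.2 (e.chord0 S z hz t ht fun h1 =>
    hF ⟨S.D.frΩ hz, eq_inv_of_mul_eq_one_left h1⟩)

end Pool.Agent.Lib.MP_7e554c_an.CZ
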