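import Pool.Agent.Lib.MP_7e554c_an.CZ.FTC

/-! Plane geometry. -/

open MeasureTheory Metric Set Filter Topology Complex Polynomial
open scoped InnerProductSpace ComplexConjugate Real

namespace Pool.Agent.Lib.MP_7e554c_an.CZ

set_option linter.unusedSectionVars false

variable {E : Type} [NormedAddCommGroup E] [InnerProductSpace ℂ E] [CompleteSpace E]
  [FiniteDimensional ℂ E]
  {Ω U : Set ℂ} {γ : ℝ → ℂ} {A T : Op E} {f : ℂ → ℂ} {x y : E}

theorem rel_c {s t p q : ℂ} (h : ((s - t) * conj (p + q)).re = 0) :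
    (s - t) * (conj p + conj q) + (conj s - conj t) * (p + q) = 0 := by
  have := add_conj ((s - t) * conj (p + q))
  rw [h, map_mul, conj_conj, map_add, map_sub] at this
  simpa using this

theorem im_c {u v : ℂ} (h : (u * conj v).im ≠ 0) : u * conj v - conj u * v ≠ 0 := fun e => by
  have := sub_conj (u * conj v)
  rw [map_mul, conj_conj, e] at this
  have a := ofReal_eq_zero.1 ((mul_eq_zero.1 this.symm).resolve_right I_ne_zero)
  exact h (by linarith)

theorem deg_le_one {q l r : ℂ[X]} (hl : l.natDegree ≤ 1) (hr : r.natDegree ≤ 2)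
    (h : q ^ 2 + l * q + r = 0) : q.natDegree ≤ 1 := by
  by_contra hn
  have e : q ^ 2 = -(l * q + r) := by linear_combination h
  have a := congrArg natDegree e
  have b := natDegree_add_le (l * q) r
  have c := natDegree_mul_le (p := l) (q := q)
  rw [natDegree_pow, natDegree_neg] at a
  omega

theorem geo_lin {Z : Set ℂ} (hZ : Z.Infinite) {N : ℂ → ℂ} {P D : ℂ[X]} (cop : IsCoprime P D)
    (hN : ∀ s ∈ Z, N s * P.eval s = D.eval s) (hP : ∀ s ∈ Z, P.eval s ≠ 0)
    (tri : ∃ a ∈ Z, ∃ b ∈ Z, ∃ c ∈ Z, ((b - a) * conj (c - a)).im ≠ 0)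
    (rel : ∀ s ∈ Z, ∀ t ∈ Z, ((s - t) * conj (N s + N t)).re = 0) :
    ∃ β δ : ℂ, ∀ s ∈ Z, N s = β * s + δ := by
  obtain ⟨a, ha, b, hb, c, hc, h⟩ := tri
  have W := im_c h
  rw [map_sub, map_sub] at W
  obtain ⟨β, η, δ, h1⟩ : ∃ β η δ : ℂ, ∀ s ∈ Z, N s = β * s + η * conj s + δ := by
    obtain ⟨w, hw⟩ : ∃ w, w = (b - a) * (conj c - conj a) - (conj b - conj a) * (c - a) := ⟨_, rfl⟩
    rw [← hw] at W
    refine ⟨((b - a) * (conj (N c) - conj (N a)) - (c - a) * (conj (N b) - conj (N a))) / w,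
      ((b - a) * (N c - N a) - (c - a) * (N b - N a)) / w,
      ((b - a) * (a * conj (N a) + conj a * N a - c * conj (N c) - conj c * N c) -
        (c - a) * (a * conj (N a) + conj a * N a - b * conj (N b) - conj b * N b)) / w,
      fun s hs => ?_⟩
    have r1 := rel_c (rel s hs a ha)
    have r2 := rel_c (rel s hs b hb)
    have r3 := rel_c (rel s hs c hc)
    field_simp
    rw [hw]
    linear_combination (c - a) * (r2 - r1) - (b - a) * (r3 - r1)
  by_cases η0 : η = 0
  · exact ⟨β, δ, fun s hs => by rw [h1 s hs, η0, zero_mul, add_zero]⟩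
  obtain ⟨l, r, hl, hr, h2⟩ : ∃ l r : ℂ[X], l.natDegree ≤ 1 ∧ r.natDegree ≤ 2 ∧
      ∀ s ∈ Z, N s ^ 2 + l.eval s * N s + r.eval s = 0 := by
    refine ⟨C (conj β) * (X - C a) - C β * X + C (N a - δ - η * conj a),
      (X - C a) * (C (η * conj η - β * conj β) * X + C (η * (conj δ + conj (N a)) - conj β * δ)) -
        C (N a) * (C β * X + C (δ + η * conj a)), by compute_degree, by compute_degree,
      fun s hs => ?_⟩
    have r1 := rel_c (rel s hs a ha)
    have r2 := h1 s hs
    have r3 := congrArg conj r2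
    simp only [map_add, map_mul, conj_conj] at r3
    simp only [eval_add, eval_sub, eval_mul, eval_C, eval_X]
    linear_combination η * r1 - η * (s - a) * r3 + (conj β * (s - a) + N s + N a) * r2
  have h3 : D ^ 2 + l * D * P + r * P ^ 2 = 0 := by
    refine eq_zero_of_infinite_isRoot _ (hZ.mono fun s hs => ?_)
    simp only [mem_ofPred_eq, IsRoot.def, eval_add, eval_mul, eval_pow]
    rw [← hN s hs]
    linear_combination P.eval s ^ 2 * h2 s hs
  have h4 : IsUnit P := (cop.pow_right (n := 2)).isUnit_of_dvd' dvd_rfl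
    ⟨-(l * D + r * P), by linear_combination h3⟩
  obtain ⟨p, hp, rfl⟩ := Polynomial.isUnit_iff.1 h4
  have p0 : p ≠ 0 := hp.ne_zero
  obtain ⟨q, h5⟩ : ∃ q : ℂ[X], ∀ s ∈ Z, N s = q.eval s := ⟨C p⁻¹ * D, fun s hs => by
    rw [eval_mul, eval_C, ← hN s hs, eval_C]
    field_simp⟩
  have h6 : q ^ 2 + l * q + r = 0 := by
    refine eq_zero_of_infinite_isRoot _ (hZ.mono fun s hs => ?_)
    simp only [mem_ofPred_eq, IsRoot.def, eval_add, eval_mul, eval_pow]
    rw [← h5 s hs]
    exact h2 s hs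
  refine ⟨q.coeff 1, q.coeff 0, fun s hs => ?_⟩
  have h7 := congrArg (eval s) (eq_X_add_C_of_natDegree_le_one (deg_le_one hl hr h6))
  rwa [eval_add, eval_mul, eval_C, eval_X, eval_C, ← h5 s hs] at h7

theorem geo {Z : Set ℂ} (hZ : Z.Infinite) {N : ℂ → ℂ} {P D : ℂ[X]} (cop : IsCoprime P D)
    (hN : ∀ s ∈ Z, N s * P.eval s = D.eval s) (h0 : ∀ s ∈ Z, N s ≠ 0) (hP : ∀ s ∈ Z, P.eval s ≠ 0)
    (tri : ∃ a ∈ Z, ∃ b ∈ Z, ∃ c ∈ Z, ((b - a) * conj (c - a)).im ≠ 0)
    (rel : ∀ s ∈ Z, ∀ t ∈ Z, ((s - t) * conj (N s + N t)).re = 0) :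
    ∃ (m β : ℂ) (r : ℝ), ∀ s ∈ Z, N s = β * (s - m) ∧ ‖s - m‖ = r := by
  obtain ⟨β, δ, h1⟩ := geo_lin hZ cop hN hP tri rel
  obtain ⟨a, ha, b, hb, c, hc, h⟩ := tri
  have W := im_c h
  rw [map_sub, map_sub] at W
  have R : ∀ s ∈ Z, ∀ t ∈ Z, (s - t) * (conj β * conj s + conj δ + (conj β * conj t + conj δ)) +
      (conj s - conj t) * (β * s + δ + (β * t + δ)) = 0 := fun s hs t ht => by
    have := rel_c (rel s hs t ht)
    rwa [h1 s hs, h1 t ht, map_add, map_add, map_mul, map_mul] at this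
  have β0 : β ≠ 0 := fun e => by
    have d0 : δ ≠ 0 := by simpa [h1 a ha, e] using h0 a ha
    have r1 := R b hb a ha
    have r2 := R c hc a ha
    rw [e, map_zero] at r1 r2
    refine mul_ne_zero (mul_ne_zero two_ne_zero d0) W ?_
    linear_combination (b - a) * r2 - (c - a) * r1
  have βr : conj β = β := by
    have e : (conj β - β) * ((b - a) * (conj c - conj a) - (conj b - conj a) * (c - a)) = 0 := by
      linear_combination R b hb c hc + R c hc a ha + R a ha b hb
    exact sub_eq_zero.1 ((mul_eq_zero.1 e).resolve_right W)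
  refine ⟨-δ / β, β, ‖a - -δ / β‖, fun s hs => ⟨by rw [h1 s hs]; field_simp; ring, ?_⟩⟩
  have r := R s hs a ha
  rw [βr] at r
  have e : (s - -δ / β) * conj (s - -δ / β) = (a - -δ / β) * conj (a - -δ / β) := by
    simp only [map_sub, map_div₀, map_neg, βr]
    field_simp
    linear_combination (β / 2) * r
  rw [mul_conj, mul_conj, ofReal_inj, normSq_eq_norm_sq, normSq_eq_norm_sq] at e
  exact (sq_eq_sq₀ (norm_nonneg _) (norm_nonneg _)).1 e

theorem Crv.tri (C : Crv Ω γ) (cp : IsCompact Ω) {F : Set ℂ} (hF : F.Finite) :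
    ∃ a ∈ frontier Ω \ F, ∃ b ∈ frontier Ω \ F, ∃ c ∈ frontier Ω \ F,
      ((b - a) * conj (c - a)).im ≠ 0 := by
  by_contra hc
  push Not at hc
  obtain ⟨a, ha, b, hb, hab⟩ := (C.inf.sdiff hF).nontrivial
  have k := C.closed_fin (p := fun z => ((((b - a) * conj (z - a)).im : ℝ) : ℂ))
    (Continuous.continuousOn (by fun_prop)) hF fun z hz h => ofReal_eq_zero.2 (hc a ha b hb z ⟨hz, h⟩)
  have mx : ∀ s : ℝ, ∀ z ∈ Ω, s * ((b - a) * conj (z - a)).im ≤ 0 := fun s z hz => by
    have id : ∀ w : ℂ, (s * I * conj (b - a) * (w - a)).re = s * ((b - a) * conj (w - a)).im :=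
      fun w => by simp; ring
    have := Complex.norm_le_of_forall_mem_frontier_norm_le cp.isBounded
      (f := fun w => cexp (s * I * conj (b - a) * (w - a))) (Differentiable.diffContOnCl (by fun_prop))
      (C := 1) (fun w hw => by rw [norm_exp, id, ofReal_eq_zero.1 (k w hw)]; simp) (subset_closure hz)
    rwa [norm_exp, Real.exp_le_one_iff, id] at this
  obtain ⟨c, hc0, -⟩ := C.wind
  have z0 : ∀ z ∈ Ω, ((b - a) * conj (z - a)).im = 0 := fun z hz => by
    linarith [mx 1 z hz, mx (-1) z hz]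
  have t : Tendsto (fun r : ℝ => c + r * (I * (b - a))) (𝓝 0) (𝓝 c) := by
    have : Continuous fun r : ℝ => c + r * (I * (b - a)) := by fun_prop
    simpa using this.tendsto 0
  obtain ⟨r, h1, h2⟩ := ((t.eventually (mem_interior_iff_mem_nhds.1 hc0)).filter_mono
    (nhdsWithin_le_nhds (s := {0}ᶜ))).and self_mem_nhdsWithin |>.exists
  have e1 := z0 _ h1
  have e2 := z0 c (interior_subset hc0)
  have e3 : r * normSq (b - a) = 0 := by
    simp only [normSq_apply, mul_im, conj_re, conj_im, sub_re, sub_im, add_re, add_im, mul_re,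
      ofReal_re, ofReal_im, I_re, I_im] at e1 e2 ⊢
    linear_combination e2 - e1
  exact mul_ne_zero h2 (normSq_pos.2 (sub_ne_zero.2 hab.symm)).ne' e3

theorem eq_disc (cp : IsCompact Ω) (h : (interior Ω).Nonempty) {m : ℂ} {r : ℝ}
    (hr : ∀ z ∈ frontier Ω, ‖z - m‖ = r) : 0 < r ∧ Ω = closedBall m r := by
  have sub : Ω ⊆ closedBall m r := fun z hz => by
    have := Complex.norm_le_of_forall_mem_frontier_norm_le cp.isBounded (f := fun w => w - m)
      (Differentiable.diffContOnCl (by fun_prop)) (fun w hw => (hr w hw).le) (subset_closure hz)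
    exact mem_closedBall_iff_norm.2 this
  obtain ⟨c, hc⟩ := h
  have hb : c ∈ interior (closedBall m r) := interior_mono sub hc
  have r0 : 0 < r := by
    rw [interior_closedBall'] at hb
    exact pos_of_mem_ball hb
  rw [interior_closedBall'] at hb
  refine ⟨r0, sub.antisymm ?_⟩
  rw [← closure_ball m r0.ne']
  refine closure_minimal (Subset.trans ?_ interior_subset) cp.isClosed
  refine (convex_ball m r).isPreconnected.subset_left_of_subset_union isOpen_interior
    cp.isClosed.isOpen_compl (disjoint_compl_right.mono_left interior_subset) (fun z hz => ?_)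
    ⟨c, hb, hc⟩
  by_cases h1 : z ∈ Ω
  · refine Or.inl (by_contra fun h2 => ?_)
    exact (mem_ball_iff_norm.1 hz).ne (hr z ⟨subset_closure h1, h2⟩)
  · exact Or.inr h1

end Pool.Agent.Lib.MP_7e554c_an.CZ
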