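import Pool.Agent.Lib.MP_7e554c_an.CZ.Eq4
import Pool.Agent.Lib.MP_7e554c_an.CZ.Geo

/-! The equality case forces a disc. -/

open MeasureTheory Metric Set Filter Topology Complex Polynomial
open scoped InnerProductSpace ComplexConjugate Real

namespace Pool.Agent.Lib.MP_7e554c_an.CZ

set_option linter.unusedSectionVars false

variable {E : Type} [NormedAddCommGroup E] [InnerProductSpace ℂ E] [CompleteSpace E]
  [FiniteDimensional ℂ E]
  {Ω U : Set ℂ} {γ : ℝ → ℂ} {A T : Op E} {f : ℂ → ℂ} {x y : E}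

theorem Sit.aa_ne (S : Sit Ω U γ A f T) (hx : ‖x‖ = 1) : ¬∀ z ∈ frontier Ω, aa A x z = 0 := by
  intro h
  have i := S.C.intg ((res_contOn A).mono S.res)
  let L : Op E →L[ℂ] ℂ := (innerSL ℂ x).comp (ContinuousLinearMap.apply ℂ E x)
  have e := L.intervalIntegral_comp_comm i
  have e2 : ∀ t, L (deriv γ t • resolvent A (γ t)) = 0 := fun t => by
    rw [map_smul]
    exact smul_eq_zero_of_right _ (h _ (S.C.fr t))
  have e3 : L 1 = 1 := by
    show ⟪x, x⟫_ℂ = 1
    rw [nsq, hx]; simp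
  simp only [e2] at e
  rw [intervalIntegral.integral_zero, S.C.int_res S.D.cv S.sp, map_smul, e3, smul_eq_mul,
    mul_one] at e
  exact two_pi_I e.symm

theorem Ext.disc (S : Sit Ω U γ A f T) (e : Ext γ A f T x y) (h : 1 < ‖T‖) : Disc Ω f 0 := by
  obtain ⟨P, D, F, cop, D0, hF, hPD⟩ := aa_rat A x
  have P0 : P ≠ 0 := fun hP => S.aa_ne e.nx (S.C.closed_fin (S.aa_cont x)
    (hF.union (finite_setOfPred_isRoot D0)) fun z hz h1 => by
      have := hPD z (S.res hz) fun h2 => h1 (Or.inl h2)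
      rw [hP, eval_zero] at this
      exact (mul_eq_zero.1 this).resolve_right fun h2 => h1 (Or.inr h2))
  have hF' := hF.union (finite_setOfPred_isRoot P0)
  have k1 : ∀ z ∈ frontier Ω \ (F ∪ {z | IsRoot P z}), aa A x z * D.eval z = P.eval z :=
    fun z hz => hPD z (S.res hz.1) fun h2 => hz.2 (Or.inl h2)
  have k2 : ∀ z ∈ frontier Ω \ (F ∪ {z | IsRoot P z}), P.eval z ≠ 0 :=
    fun z hz h2 => hz.2 (Or.inr h2)
  have k3 : ∀ z ∈ frontier Ω \ (F ∪ {z | IsRoot P z}), aa A x z ≠ 0 := fun z hz h2 =>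
    k2 z hz (by rw [← k1 z hz, h2, zero_mul])
  obtain ⟨m, β, r, hm⟩ := geo (S.C.inf.sdiff hF') (N := fun z => (aa A x z)⁻¹) cop
    (fun z hz => by rw [← k1 z hz, inv_mul_cancel_left₀ (k3 z hz)])
    (fun z hz => inv_ne_zero (k3 z hz)) k2 (S.C.tri S.D.cp hF') fun s hs t ht => by
      have a := e.chord S h s hs.1 t ht.1
      have s0 := k3 s hs
      have t0 := k3 t ht
      have s1 : conj (aa A x s) ≠ 0 := (_root_.map_ne_zero _).2 s0
      have t1 : conj (aa A x t) ≠ 0 := (_root_.map_ne_zero _).2 t0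
      have b : aa A x s * aa A x t * (s - t) * conj (aa A x s + aa A x t) =
          (normSq (aa A x s * aa A x t) : ℂ) * ((s - t) * conj ((aa A x s)⁻¹ + (aa A x t)⁻¹)) := by
        rw [← mul_conj]
        simp only [map_mul, map_add, map_inv₀]
        field_simp
        ring
      rw [b, re_ofReal_mul] at a
      exact (mul_eq_zero.1 a).resolve_left (normSq_pos.2 (mul_ne_zero s0 t0)).ne'
  have hr := S.C.closed_fin (p := fun z => ((‖z - m‖ - r : ℝ) : ℂ))
    (Continuous.continuousOn (by fun_prop)) hF' fun z hz h1 => by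
      rw [(hm z ⟨hz, h1⟩).2, sub_self, ofReal_zero]
  obtain ⟨c, hc, -⟩ := S.C.wind
  obtain ⟨r0, hΩ⟩ := eq_disc S.D.cp ⟨c, hc⟩ fun z hz => sub_eq_zero.1 (ofReal_eq_zero.1 (hr z hz))
  refine ⟨m, r, r0, hΩ, ?_, fun z hz => ?_⟩
  · obtain ⟨h', k, -, dk, hk⟩ := e.holo S
    have a := S.D.ident S.R.df (h := fun z => k z * (β * (z - m)))
      (dk.mul (Differentiable.differentiableOn (by fun_prop))) (S.C.inf.sdiff hF')
      (fun z hz => S.D.frΩ hz.1) (fun z hz => by
        rw [← (hm z hz).1, ← (hk z hz.1).2, mul_inv_cancel_right₀ (k3 z hz)])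
      m (S.D.sub (hΩ ▸ mem_closedBall_self r0.le))
    rw [a, sub_self, mul_zero, mul_zero, norm_zero]
  · have cf : ContinuousOn (fun z => ((1 - ‖f z‖ ^ 2 : ℝ) : ℂ)) (frontier Ω) :=
      continuous_ofReal.comp_continuousOn (continuousOn_const.sub (S.f_cont.norm.pow 2))
    have a := S.C.closed (p := fun z => ((1 - ‖f z‖ ^ 2 : ℝ) : ℂ) * aa A x z)
      (cf.mul (S.aa_cont x)) (by
        filter_upwards [e.ae, (e.step3 S).2, S.C.ae_diff] with t h1 h2 h3 hI
        refine (mul_eq_zero.1 ?_).resolve_left (S.C.left t h3).1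
        rw [mul_left_comm]
        refine Complex.ext ?_ ?_
        · rw [re_ofReal_mul, h2 hI, mul_zero, zero_re]
        · rw [im_ofReal_mul, zero_im]
          exact (h1 hI).2)
    have b := S.C.closed_fin cf hF' (fun z hz h1 =>
      (mul_eq_zero.1 (a z hz)).resolve_right (k3 z ⟨hz, h1⟩)) z
      (by rw [hΩ, frontier_closedBall m r0.ne']; exact hz)
    have := ofReal_eq_zero.1 b
    exact (pow_eq_one_iff_of_nonneg (norm_nonneg _) two_ne_zero).1 (by linarith)

end Pool.Agent.Lib.MP_7e554c_an.CZ
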