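import Pool.Agent.Lib.MP_7e554c_an.CZ.Defs

/-! Integrals along the boundary curve. -/

open MeasureTheory Metric Set Filter Topology Complex Polynomial
open scoped InnerProductSpace ComplexConjugate Real

namespace Pool.Agent.Lib.MP_7e554c_an.CZ

set_option linter.unusedSectionVars false

variable {E : Type} [NormedAddCommGroup E] [InnerProductSpace ℂ E] [CompleteSpace E]
  [FiniteDimensional ℂ E]
  {Ω U : Set ℂ} {γ : ℝ → ℂ} {A T : Op E} {f : ℂ → ℂ} {x y : E}

variable {X : Type} [NormedAddCommGroup X] [NormedSpace ℂ X]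

theorem Crv.ae_diff (C : Crv Ω γ) : ∀ᵐ t, DifferentiableAt ℝ γ t := by
  obtain ⟨K, hK⟩ := C.lip
  exact hK.ae_differentiableAt_real

theorem Crv.cont (C : Crv Ω γ) : Continuous γ := by
  obtain ⟨K, hK⟩ := C.lip
  exact hK.continuous

theorem Crv.comp {Y : Type} [TopologicalSpace Y] (C : Crv Ω γ) {g : ℂ → Y}
    (hg : ContinuousOn g (frontier Ω)) : Continuous fun t => g (γ t) :=
  hg.comp_continuous C.cont C.fr

theorem Crv.int_deriv (C : Crv Ω γ) (a b : ℝ) : IntervalIntegrable (deriv γ) volume a b := by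
  obtain ⟨K, hK⟩ := C.lip
  refine (intervalIntegrable_const (c := (K : ℝ))).mono_fun'
    (measurable_deriv γ).aestronglyMeasurable (ae_of_all _ fun t => ?_)
  exact norm_deriv_le_of_lipschitz hK

theorem Crv.intg (C : Crv Ω γ) {g : ℂ → X} (hg : ContinuousOn g (frontier Ω)) :
    IntervalIntegrable (fun t => deriv γ t • g (γ t)) volume 0 (2 * π) := by
  exact (C.int_deriv _ _).smul_continuousOn (C.comp hg).continuousOn

theorem Crv.ftc_re (C : Crv Ω γ) {O : Set ℂ} (oO : IsOpen O) (hO : frontier Ω ⊆ O)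
    {Φ φ : ℂ → X} [CompleteSpace X] (h : ∀ z ∈ O, HasDerivAt Φ (φ z) z) (L : X →L[ℝ] ℝ)
    {b : ℝ} (hb : 0 ≤ b) :
    ∫ t in (0 : ℝ)..b, L (deriv γ t • φ (γ t)) = L (Φ (γ b)) - L (Φ (γ 0)) := by
  obtain ⟨K, hK⟩ := C.lip
  have dO : DifferentiableOn ℂ Φ O := fun z hz => (h z hz).differentiableAt.differentiableWithinAt
  have ll : LocallyLipschitzOn (Icc 0 b) fun t => L (Φ (γ t)) := fun t _ => by
    have c1 : ContDiffAt ℝ 1 Φ (γ t) :=
      ((dO.analyticAt (oO.mem_nhds (hO (C.fr t)))).contDiffAt (n := 1)).restrict_scalars ℝ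
    obtain ⟨J, s, hs, hJ⟩ := (L.contDiff.contDiffAt.comp _ c1).exists_lipschitzOnWith
    exact ⟨J * K, γ ⁻¹' s, mem_nhdsWithin_of_mem_nhds (hK.continuous.continuousAt hs),
      hJ.comp hK.lipschitzOnWith (mapsTo_preimage _ _)⟩
  obtain ⟨J, hJ⟩ := ll.exists_lipschitzOnWith_of_compact isCompact_Icc
  rw [← uIcc_of_le hb] at hJ
  rw [← hJ.absolutelyContinuousOnInterval.integral_deriv_eq_sub]
  refine intervalIntegral.integral_congr_ae ?_
  filter_upwards [C.ae_diff] with t ht _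
  have d := (h _ (hO (C.fr t))).hasFDerivAt.restrictScalars ℝ |>.comp_hasDerivAt t ht.hasDerivAt
  have d2 := L.hasFDerivAt.comp_hasDerivAt t d
  exact d2.deriv.symm

theorem Crv.int_exact [CompleteSpace X] (C : Crv Ω γ) {O : Set ℂ} (oO : IsOpen O)
    (hO : frontier Ω ⊆ O) {Φ φ : ℂ → X} (h : ∀ z ∈ O, HasDerivAt Φ (φ z) z) :
    ∫ t in (0 : ℝ)..2 * π, deriv γ t • φ (γ t) = 0 := by
  have dO : DifferentiableOn ℂ Φ O := fun z hz => (h z hz).differentiableAt.differentiableWithinAt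
  have cφ : ContinuousOn φ O :=
    ((dO.deriv oO).continuousOn).congr fun z hz => (h z hz).deriv.symm
  refine SeparatingDual.eq_zero_of_forall_dual_eq_zero (R := ℝ) fun L => ?_
  rw [← L.intervalIntegral_comp_comm (C.intg (cφ.mono hO)),
    C.ftc_re oO hO h L Real.two_pi_pos.le, C.per, sub_self]

theorem Crv.im_const (C : Crv Ω γ) {O : Set ℂ} (oO : IsOpen O) (hO : frontier Ω ⊆ O)
    {Φ φ : ℂ → ℂ} (h : ∀ z ∈ O, HasDerivAt Φ (φ z) z)
    (hr : ∀ᵐ t, t ∈ Ioc 0 (2 * π) → (deriv γ t * φ (γ t)).im = 0) :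
    ∃ c : ℝ, ∀ z ∈ frontier Ω, (Φ z).im = c := by
  refine ⟨(Φ (γ 0)).im, fun z hz => ?_⟩
  obtain ⟨b, hb, rfl⟩ := C.sj z hz
  have e := C.ftc_re oO hO h imCLM hb.1
  rw [intervalIntegral.integral_congr_ae (g := fun _ => (0 : ℝ)), intervalIntegral.integral_zero]
    at e
  · exact sub_eq_zero.1 e.symm
  · filter_upwards [hr] with t ht h1
    rw [uIoc_of_le hb.1] at h1
    exact ht ⟨h1.1, h1.2.trans hb.2⟩

theorem Crv.closed (C : Crv Ω γ) {p : ℂ → X} (hp : ContinuousOn p (frontier Ω))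
    (h : ∀ᵐ t, t ∈ Ioc 0 (2 * π) → p (γ t) = 0) : ∀ z ∈ frontier Ω, p z = 0 := by
  intro z hz
  obtain ⟨b, hb, rfl⟩ := C.sj z hz
  have h1 : (fun t => p (γ t)) =ᵐ[volume.restrict (Ioo 0 (2 * π))] fun _ => 0 := by
    filter_upwards [ae_restrict_of_ae h, ae_restrict_mem measurableSet_Ioo] with t h1 h2
    exact h1 (Ioo_subset_Ioc_self h2)
  have h2 := Measure.eqOn_open_of_ae_eq h1 isOpen_Ioo (C.comp hp).continuousOn continuousOn_const
  have h3 := h2.closure (C.comp hp) continuous_const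
  rw [closure_Ioo Real.two_pi_pos.ne] at h3
  exact h3 hb

theorem Crv.ae_notMem (C : Crv Ω γ) {F : Set ℂ} (hF : F.Finite) : ∀ᵐ t, γ t ∉ F := by
  have h : {t | γ t ∈ F}.Countable := by
    refine (hF.countable.biUnion fun z _ => C.cnt z).mono fun t ht => ?_
    exact mem_biUnion ht rfl
  exact measure_eq_zero_iff_ae_notMem.1 (h.measure_zero volume)

theorem Crv.closed_fin (C : Crv Ω γ) {p : ℂ → X} (hp : ContinuousOn p (frontier Ω)) {F : Set ℂ}
    (hF : F.Finite) (h : ∀ z ∈ frontier Ω, z ∉ F → p z = 0) : ∀ z ∈ frontier Ω, p z = 0 := by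
  exact C.closed hp ((C.ae_notMem hF).mono fun t ht _ => h _ (C.fr t) ht)

theorem Crv.inf (C : Crv Ω γ) : (frontier Ω).Infinite := by
  intro h
  obtain ⟨t, ht⟩ := (C.ae_notMem h).exists
  exact ht (C.fr t)

end Pool.Agent.Lib.MP_7e554c_an.CZ
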