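import Pool.Agent.Lib.MP_7e554c_an.CZ.Defs

/-! Linear algebra. -/

open MeasureTheory Metric Set Filter Topology Complex Polynomial
open scoped InnerProductSpace ComplexConjugate Real

namespace Pool.Agent.Lib.MP_7e554c_an.CZ

set_option linter.unusedSectionVars false

variable {E : Type} [NormedAddCommGroup E] [InnerProductSpace ℂ E] [CompleteSpace E]
  [FiniteDimensional ℂ E]
  {Ω U : Set ℂ} {γ : ℝ → ℂ} {A T : Op E} {f : ℂ → ℂ} {x y : E}

theorem unit_of_inj {B : Op E} (h : ∀ v, B v = 0 → v = 0) : IsUnit B := by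
  have inj : Function.Injective (B : E →ₗ[ℂ] E) := (injective_iff_map_eq_zero _).2 h
  exact ContinuousLinearMap.isUnit_iff_bijective.2
    ⟨inj, LinearMap.injective_iff_surjective.1 inj⟩

theorem unit_vec {v : E} (h : v ≠ 0) : ‖((‖v‖⁻¹ : ℝ) : ℂ) • v‖ = 1 := by
  rw [norm_smul, norm_real, norm_inv, norm_norm, inv_mul_cancel₀ (norm_ne_zero_iff.2 h)]

theorem eig {z : ℂ} : z ∈ spectrum ℂ A ↔ ∃ v : E, ‖v‖ = 1 ∧ A v = z • v := by
  rw [spectrum.mem_iff, Algebra.algebraMap_eq_smul_one]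
  constructor
  · intro h
    by_contra hc
    refine h (unit_of_inj fun v hv => ?_)
    by_contra h0
    refine hc ⟨_, unit_vec h0, ?_⟩
    have e : A v = z • v := by
      have : z • v - A v = 0 := hv
      exact (sub_eq_zero.1 this).symm
    rw [map_smul, e, smul_comm]
  · rintro ⟨v, h1, h2⟩ hu
    have inj := (ContinuousLinearMap.isUnit_iff_bijective.1 hu).1
    have e : (z • (1 : Op E) - A) v = (z • (1 : Op E) - A) 0 := by
      rw [map_zero]
      show z • v - A v = 0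
      rw [h2, sub_self]
    rw [inj e, norm_zero] at h1
    exact zero_ne_one h1

theorem spec_sub (A : Op E) : spectrum ℂ A ⊆ NR A := by
  intro z hz
  obtain ⟨v, h1, h2⟩ := eig.1 hz
  refine ⟨v, h1, ?_⟩
  rw [h2, inner_smul_right, inner_self_eq_norm_sq_to_K, h1]
  simp

theorem nr_scale (A : Op E) {u : E} (h : u ≠ 0) :
    ∃ z ∈ NR A, ⟪u, A u⟫_ℂ = ((‖u‖ ^ 2 : ℝ) : ℂ) * z := by
  refine ⟨_, ⟨_, unit_vec h, rfl⟩, ?_⟩
  have : (‖u‖ : ℂ) ≠ 0 := ofReal_ne_zero.2 (norm_ne_zero_iff.2 h)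
  rw [map_smul, inner_smul_left, inner_smul_right, conj_ofReal]
  push_cast
  field_simp

theorem exists_top (h : 0 < ‖T‖) :
    ∃ v : E, ‖v‖ = 1 ∧ star T (T v) = ((‖T‖ ^ 2 : ℝ) : ℂ) • v := by
  have ne : (sphere (0 : E) 1).Nonempty := by
    obtain ⟨v, hv⟩ : ∃ v, T v ≠ 0 := by
      by_contra hc
      push Not at hc
      have : T = 0 := ContinuousLinearMap.ext hc
      rw [this, norm_zero] at h
      exact lt_irrefl _ h
    have v0 : v ≠ 0 := fun e => hv (by rw [e, map_zero])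
    exact ⟨_, mem_sphere_zero_iff_norm.2 (unit_vec v0)⟩
  obtain ⟨v, hv, hm⟩ := (isCompact_sphere (0 : E) 1).exists_isMaxOn ne
    (f := fun v => ‖T v‖) T.continuous.norm.continuousOn
  have v1 : ‖v‖ = 1 := mem_sphere_zero_iff_norm.1 hv
  have e : ‖T v‖ = ‖T‖ := by
    refine le_antisymm (by simpa [v1] using T.le_opNorm v) ?_
    exact ContinuousLinearMap.opNorm_le_of_unit_norm (norm_nonneg _) fun w hw =>
      hm (mem_sphere_zero_iff_norm.2 hw)
  refine ⟨v, v1, ?_⟩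
  have a1 : ‖star T (T v)‖ ≤ ‖T‖ ^ 2 := by
    calc ‖star T (T v)‖ ≤ ‖star T‖ * ‖T v‖ := (star T).le_opNorm _
      _ = ‖T‖ ^ 2 := by rw [norm_star, e, sq]
  have a2 : (⟪star T (T v), ((‖T‖ ^ 2 : ℝ) : ℂ) • v⟫_ℂ).re = ‖T‖ ^ 2 * ‖T‖ ^ 2 := by
    rw [inner_smul_right, star_left, nsq, e, re_ofReal_mul, ofReal_re]
  have a3 : ‖((‖T‖ ^ 2 : ℝ) : ℂ) • v‖ = ‖T‖ ^ 2 := by
    rw [norm_smul, v1, mul_one, norm_real, Real.norm_of_nonneg (sq_nonneg _)]
  have a4 := norm_sub_sq (𝕜 := ℂ) (star T (T v)) (((‖T‖ ^ 2 : ℝ) : ℂ) • v)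
  rw [RCLike.re_to_complex, a2, a3] at a4
  have a5 : ‖star T (T v)‖ ^ 2 ≤ (‖T‖ ^ 2) ^ 2 := pow_le_pow_left₀ (norm_nonneg _) a1 2
  have a6 : ‖star T (T v) - ((‖T‖ ^ 2 : ℝ) : ℂ) • v‖ ^ 2 ≤ 0 := by nlinarith
  exact sub_eq_zero.1 (norm_eq_zero.1 (pow_eq_zero_iff two_ne_zero |>.1
    (le_antisymm a6 (sq_nonneg _))))

theorem pos_ker {M : Op E} (hs : star M = M) (hp : ∀ v : E, 0 ≤ (⟪v, M v⟫_ℂ).re) {v : E}
    (h : (⟪v, M v⟫_ℂ).re = 0) : M v = 0 := by
  by_contra h0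
  have hq : 0 < ‖M v‖ ^ 2 := pow_pos (norm_pos_iff.2 h0) 2
  set q := (⟪M v, M (M v)⟫_ℂ).re with hqq
  have q0 : 0 ≤ q := hp _
  have key : ∀ s : ℝ, 0 ≤ -2 * s * ‖M v‖ ^ 2 + s ^ 2 * q := fun s => by
    have a := hp (v - (s : ℂ) • M v)
    have e1 : ⟪v, M (M v)⟫_ℂ = ((‖M v‖ ^ 2 : ℝ) : ℂ) := by
      rw [← star_left, hs, inner_self_eq_norm_sq_to_K]; norm_cast
    have e2 : ⟪M v, M v⟫_ℂ = ((‖M v‖ ^ 2 : ℝ) : ℂ) := by
      rw [inner_self_eq_norm_sq_to_K]; norm_cast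
    rw [map_sub, map_smul, inner_sub_left, inner_sub_right, inner_sub_right, inner_smul_left,
      inner_smul_left, inner_smul_right, inner_smul_right, e1, e2, conj_ofReal] at a
    simp only [sub_re, re_ofReal_mul, ofReal_re, h] at a
    nlinarith
  have k := key (‖M v‖ ^ 2 / (q + 1))
  have q1 : 0 < q + 1 := by linarith
  have s0 : 0 < ‖M v‖ ^ 2 / (q + 1) := div_pos hq q1
  have s1 : ‖M v‖ ^ 2 / (q + 1) * q ≤ ‖M v‖ ^ 2 := by
    rw [div_mul_eq_mul_div, div_le_iff₀ q1]; nlinarith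
  nlinarith [mul_pos s0 hq, mul_le_mul_of_nonneg_left s1 s0.le]

theorem pow_zero_lim (h : ∀ z ∈ spectrum ℂ T, ‖z‖ < 1) :
    Tendsto (fun k : ℕ => T ^ k) atTop (𝓝 0) := by
  rcases subsingleton_or_nontrivial (Op E) with hs | hs
  · simpa only [Subsingleton.elim (T ^ _) 0] using tendsto_const_nhds
  have h1 : spectralRadius ℂ T < (1 : NNReal) :=
    spectrum.spectralRadius_lt_of_forall_lt T fun z hz => by exact_mod_cast h z hz
  obtain ⟨r, r1, r2⟩ := ENNReal.lt_iff_exists_nnreal_btwn.1 h1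
  have h2 := (spectrum.pow_nnnorm_pow_one_div_tendsto_nhds_spectralRadius T).eventually
    (gt_mem_nhds r1)
  have r3 : (r : ℝ) < 1 := by exact_mod_cast r2
  refine squeeze_zero_norm' ?_ (tendsto_pow_atTop_nhds_zero_of_lt_one r.2 r3)
  filter_upwards [h2, eventually_gt_atTop 0] with k hk k0
  have k1 : (0 : ℝ) < k := by exact_mod_cast k0
  have a := ENNReal.rpow_le_rpow hk.le k1.le
  rw [← ENNReal.rpow_mul, one_div_mul_cancel k1.ne', ENNReal.rpow_one, ENNReal.rpow_natCast] at a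
  exact_mod_cast a

theorem res_poly (A : Op E) (x : E) (D : ℂ[X]) : ∀ w : E, ∃ P : ℂ[X],
    ∀ z ∈ resolventSet ℂ A,
      D.eval z * ⟪x, resolvent A z w⟫_ℂ = P.eval z + ⟪x, resolvent A z (aeval A D w)⟫_ℂ := by
  induction D using Polynomial.induction_on with
  | C a =>
    refine fun w => ⟨0, fun z _ => ?_⟩
    rw [eval_C, eval_zero, zero_add, aeval_C, Algebra.algebraMap_eq_smul_one]
    show _ = ⟪x, resolvent A z (a • w)⟫_ℂ
    rw [map_smul, inner_smul_right]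
  | add p q hp hq =>
    intro w
    obtain ⟨P, hP⟩ := hp w
    obtain ⟨Q, hQ⟩ := hq w
    refine ⟨P + Q, fun z hz => ?_⟩
    rw [eval_add, eval_add, add_mul, hP z hz, hQ z hz, map_add, add_apply, map_add,
      inner_add_right]
    ring
  | monomial k a h =>
    intro w
    obtain ⟨P, hP⟩ := h w
    refine ⟨X * P + C ⟪x, aeval A (C a * X ^ k) w⟫_ℂ, fun z hz => ?_⟩
    have e : C a * X ^ (k + 1) = X * (C a * X ^ k) := by ring
    have e2 := congrArg (fun B : Op E => ⟪x, B (aeval A (C a * X ^ k) w)⟫_ℂ) (res_mul hz)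
    simp only [mul_ap, sh_ap, one_ap, map_sub, map_smul,
      inner_sub_right, inner_smul_right] at e2
    rw [e, eval_mul, eval_X, mul_assoc, hP z hz, map_mul (aeval A) X, aeval_X, eval_add, eval_mul,
      eval_X, eval_C, mul_ap]
    linear_combination e2

theorem aa_rat (A : Op E) (x : E) : ∃ (P D : ℂ[X]) (F : Set ℂ), IsCoprime P D ∧ D ≠ 0 ∧
    F.Finite ∧ ∀ z ∈ resolventSet ℂ A, z ∉ F → aa A x z * D.eval z = P.eval z := by
  have hi : IsIntegral ℂ A := Algebra.IsIntegral.isIntegral A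
  obtain ⟨P, hP⟩ := res_poly A x (minpoly ℂ A) x
  have D0 : minpoly ℂ A ≠ 0 := minpoly.ne_zero hi
  have g0 : GCDMonoid.gcd P (minpoly ℂ A) ≠ 0 := fun h => D0 ((gcd_eq_zero_iff _ _).1 h).2
  refine ⟨P / GCDMonoid.gcd P (minpoly ℂ A), minpoly ℂ A / GCDMonoid.gcd P (minpoly ℂ A),
    {z | IsRoot (GCDMonoid.gcd P (minpoly ℂ A)) z}, isCoprime_div_gcd_div_gcd D0,
    right_div_gcd_ne_zero D0, finite_setOfPred_isRoot g0, fun z hz hF => ?_⟩
  have e := hP z hz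
  rw [minpoly.aeval, zero_apply, map_zero, inner_zero_right, add_zero] at e
  have e1 := congrArg (eval z) (EuclideanDomain.mul_div_cancel' g0 (gcd_dvd_left P (minpoly ℂ A)))
  have e2 := congrArg (eval z) (EuclideanDomain.mul_div_cancel' g0 (gcd_dvd_right P (minpoly ℂ A)))
  rw [eval_mul] at e1 e2
  refine mul_left_cancel₀ (show eval z (GCDMonoid.gcd P (minpoly ℂ A)) ≠ 0 from hF) ?_
  rw [e1, ← e, ← e2, aa]
  ring

end Pool.Agent.Lib.MP_7e554c_an.CZ
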