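import Mathlib

/-! The vocabulary of the statement. -/

open Matrix Polynomial

namespace Pool.Agent.Lib.MP_7e554c_an.CZ

variable {n : ℕ}

/-- The numerical range of a matrix. -/
def numRange (A : Matrix (Fin n) (Fin n) ℂ) : Set ℂ :=
  {z | ∃ x : Fin n → ℂ, star x ⬝ᵥ x = 1 ∧ star x ⬝ᵥ A *ᵥ x = z}

/-- `B = f(A)`: on `U` one has `f = p + χ k` with a polynomial `p`, the characteristic polynomial
`χ` of `A` and a holomorphic function `k`, and `B = p(A)`. -/
def IsValue (U : Set ℂ) (f : ℂ → ℂ) (A B : Matrix (Fin n) (Fin n) ℂ) : Prop :=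
  ∃ (p : ℂ[X]) (k : ℂ → ℂ), DifferentiableOn ℂ k U ∧
    (∀ z ∈ U, f z = p.eval z + A.charpoly.eval z * k z) ∧ B = aeval A p

end Pool.Agent.Lib.MP_7e554c_an.CZ
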