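import Pool.Agent.Lib.MP_7e554c_an.CZ.Lin

/-! The numerical range. -/

open MeasureTheory Metric Set Filter Topology Complex Polynomial
open scoped InnerProductSpace ComplexConjugate Real

namespace Pool.Agent.Lib.MP_7e554c_an.CZ

set_option linter.unusedSectionVars false

variable {E : Type} [NormedAddCommGroup E] [InnerProductSpace ℂ E] [CompleteSpace E]
  [FiniteDimensional ℂ E]
  {Ω U : Set ℂ} {γ : ℝ → ℂ} {A T : Op E} {f : ℂ → ℂ} {x y : E}

theorem th_norm {B : Op E} {x y : E} (nx : ‖x‖ = 1) (ny : ‖y‖ = 1) (hx : ⟪x, B x⟫_ℂ = 0)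
    (hy : ⟪y, B y⟫_ℂ = 1) (hr : (⟪x, B y⟫_ℂ + ⟪y, B x⟫_ℂ).im = 0) {t : ℝ} (t0 : 0 ≤ t)
    (t1 : t ≤ 1) : (t : ℂ) ∈ NR B := by
  obtain ⟨v, hv⟩ : ∃ v : ℝ → E, ∀ s, v s = ((1 - s : ℝ) : ℂ) • x + (s : ℂ) • y := ⟨_, fun _ => rfl⟩
  have q : ∀ s, ⟪v s, B (v s)⟫_ℂ =
      ((s ^ 2 + s * (1 - s) * (⟪x, B y⟫_ℂ + ⟪y, B x⟫_ℂ).re : ℝ) : ℂ) := fun s => by
    have e := re_add_im (⟪x, B y⟫_ℂ + ⟪y, B x⟫_ℂ)
    rw [hr, ofReal_zero, zero_mul, add_zero] at e
    simp only [hv, map_add, map_smul, inner_add_left, inner_add_right, inner_smul_left,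
      inner_smul_right, conj_ofReal, hx, hy, ofReal_add, ofReal_mul, e]
    push_cast
    ring
  have cv : Continuous v := by rw [funext hv]; fun_prop
  have c : Continuous fun s : ℝ => s ^ 2 + s * (1 - s) * (⟪x, B y⟫_ℂ + ⟪y, B x⟫_ℂ).re -
      ‖v s‖ ^ 2 * t := by fun_prop
  obtain ⟨s, -, hs⟩ := intermediate_value_Icc zero_le_one c.continuousOn
    (show (0 : ℝ) ∈ Icc _ _ from ⟨by simp [hv, nx, t0], by simp [hv, ny, t1]⟩)
  have v0 : v s ≠ 0 := fun h => by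
    have e : ((1 - s : ℝ) : ℂ) • x = (-(s : ℂ)) • y := by
      rw [neg_smul]; exact eq_neg_of_add_eq_zero_left (hv s ▸ h)
    have e2 := congrArg (fun u => ⟪u, B u⟫_ℂ) e
    simp only [map_smul, inner_smul_left, inner_smul_right, hx, hy] at e2
    have s0 : s = 0 := by simpa using e2
    rw [hv, s0] at h
    have : x = 0 := by simpa using h
    rw [this, norm_zero] at nx
    exact zero_ne_one nx
  obtain ⟨z, hz, e⟩ := nr_scale B v0
  rw [q, sub_eq_zero.1 hs, ofReal_mul] at e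
  rwa [mul_left_cancel₀ (ofReal_ne_zero.2 (pow_ne_zero 2 (norm_ne_zero_iff.2 v0))) e]

theorem nr_convex (A : Op E) : Convex ℝ (NR A) := by
  rintro a ⟨x, nx, hx⟩ b ⟨y, ny, hy⟩ s t s0 t0 st
  by_cases hab : a = b
  · rw [← hab, ← add_smul, st, one_smul]
    exact ⟨x, nx, hx⟩
  have c0 : b - a ≠ 0 := sub_ne_zero.2 (Ne.symm hab)
  obtain ⟨B, hB⟩ : ∃ B : Op E, ∀ u v, ⟪u, B v⟫_ℂ = (b - a)⁻¹ * (⟪u, A v⟫_ℂ - a * ⟪u, v⟫_ℂ) :=
    ⟨(-(b - a)⁻¹) • (a • (1 : Op E) - A), fun u v => by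
      rw [smul_apply, sh_ap, inner_smul_right, inner_sub_right, inner_smul_right]; ring⟩
  obtain ⟨l, l1, hl⟩ := Complex.exists_norm_eq_mul_self (⟪x, B y⟫_ℂ - conj ⟪y, B x⟫_ℂ)
  have ll : conj l * l = 1 := by rw [conj_mul', l1]; simp
  obtain ⟨u, nu, hu⟩ := th_norm (B := B) (y := l • y) nx (by rw [norm_smul, l1, ny, mul_one])
    (by rw [hB, hx, nsq, nx]; simp)
    (by
      rw [map_smul, inner_smul_left, inner_smul_right, ← mul_assoc, ll, hB, hy, nsq, ny]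
      simp [c0])
    (by
      have e := congrArg im hl
      rw [map_smul, inner_smul_left, inner_smul_right]
      simp only [ofReal_im, mul_im, sub_re, sub_im, conj_re, conj_im, add_im] at e ⊢
      linarith) t0 (by linarith)
  refine ⟨u, nu, ?_⟩
  rw [hB, nsq, nu, inv_mul_eq_iff_eq_mul₀ c0] at hu
  have : (s : ℂ) + t = 1 := by exact_mod_cast st
  rw [real_smul, real_smul]
  push_cast at hu
  linear_combination hu - a * this

theorem nr_compact (A : Op E) : IsCompact (NR A) := by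
  have e : NR A = (fun x => ⟪x, A x⟫_ℂ) '' sphere (0 : E) 1 := by
    ext z
    simp [NR]
  rw [e]
  exact (isCompact_sphere 0 1).image (by fun_prop)

end Pool.Agent.Lib.MP_7e554c_an.CZ
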