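import Pool.Agent.Lib.MP_7e554c_an.CZ.Top
import Pool.Agent.Lib.MP_7e554c_an.CZ.TH
import Pool.Agent.Lib.MP_7e554c_an.CZ.Div
import Pool.Agent.Lib.MP_7e554c_an.CZ.Stmt

/-! Transfer to matrices. -/

open Metric Set Matrix Polynomial
open scoped InnerProductSpace

namespace Pool.Agent.Lib.MP_7e554c_an.CZ

variable {n : ℕ} {A B : Matrix (Fin n) (Fin n) ℂ} {U : Set ℂ} {f : ℂ → ℂ}

/-- The operator of a matrix. -/
noncomputable abbrev op (A : Matrix (Fin n) (Fin n) ℂ) : Op (EuclideanSpace ℂ (Fin n)) :=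
  toEuclideanCLM (n := Fin n) (𝕜 := ℂ) A

theorem inner_op (A : Matrix (Fin n) (Fin n) ℂ) (x : Fin n → ℂ) :
    ⟪WithLp.toLp 2 x, op A (WithLp.toLp 2 x)⟫_ℂ = star x ⬝ᵥ A *ᵥ x := by
  rw [EuclideanSpace.inner_eq_star_dotProduct, dotProduct_comm]
  rfl

theorem dot_self (x : Fin n → ℂ) :
    star x ⬝ᵥ x = ((‖(WithLp.toLp 2 x : EuclideanSpace ℂ (Fin n))‖ ^ 2 : ℝ) : ℂ) := by
  rw [← nsq, EuclideanSpace.inner_eq_star_dotProduct, dotProduct_comm]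

theorem unit_iff (x : Fin n → ℂ) :
    star x ⬝ᵥ x = 1 ↔ ‖(WithLp.toLp 2 x : EuclideanSpace ℂ (Fin n))‖ = 1 := by
  rw [dot_self, Complex.ofReal_eq_one, pow_eq_one_iff_of_nonneg (norm_nonneg _) two_ne_zero]

theorem numRange_eq (A : Matrix (Fin n) (Fin n) ℂ) : numRange A = NR (op A) := by
  ext z
  constructor
  · rintro ⟨x, h1, h2⟩
    exact ⟨WithLp.toLp 2 x, (unit_iff x).1 h1, (inner_op A x).trans h2⟩
  · rintro ⟨x, h1, h2⟩
    exact ⟨x.ofLp, (unit_iff _).2 h1, (inner_op A x.ofLp).symm.trans h2⟩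

theorem op_aeval (A : Matrix (Fin n) (Fin n) ℂ) (p : ℂ[X]) : op (aeval A p) = aeval (op A) p :=
  (aeval_algHom_apply (toEuclideanCLM (n := Fin n) (𝕜 := ℂ)) A p).symm

theorem root_mem (A : Matrix (Fin n) (Fin n) ℂ) {z : ℂ} (h : A.charpoly.IsRoot z) :
    z ∈ numRange A := by
  rw [numRange_eq]
  refine spec_sub _ ?_
  rw [AlgEquiv.spectrum_eq (toEuclideanCLM (n := Fin n) (𝕜 := ℂ))]
  exact Matrix.mem_spectrum_iff_isRoot_charpoly.2 h

theorem value_unique (hU : IsOpen U) (hW : numRange A ⊆ U) (hf : DifferentiableOn ℂ f U) :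
    ∃! B, IsValue U f A B := by
  have hr : ∀ z, A.charpoly.IsRoot z → z ∈ U := fun z h => hW (root_mem A h)
  obtain ⟨p, k, dk, h⟩ := div_exists hU A.charpoly_monic hr hf
  refine ⟨_, ⟨p, k, dk, h, rfl⟩, ?_⟩
  rintro _ ⟨q, l, dl, hl, rfl⟩
  obtain ⟨c, hc⟩ := div_dvd hU A.charpoly_monic hr (q := q - p) (dk.sub dl) fun z hz => by
    rw [eval_sub, Pi.sub_apply]
    linear_combination h z hz - hl z hz
  rw [← sub_eq_zero, ← map_sub, hc, map_mul, aeval_self_charpoly, zero_mul]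

theorem IsValue.rep (h : IsValue U f A B) : Rep U (op A) f (op B) := by
  obtain ⟨p, k, dk, h1, rfl⟩ := h
  rw [op_aeval]
  refine (Rep.of_poly p A.charpoly dk ?_).congr h1
  rw [← op_aeval, aeval_self_charpoly]
  exact map_zero _

theorem rad_mat (hU : IsOpen U) (hW : numRange A ⊆ U) (h1 : ∀ z ∈ numRange A, ‖f z‖ ≤ 1)
    (h : IsValue U f A B) {w : ℂ} (hw : w ∈ numRange B) :
    ‖w‖ ≤ 5 / 4 ∧ (‖w‖ = 5 / 4 → Disc (numRange A) f (1 / 2)) := by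
  rw [numRange_eq] at hW h1 hw ⊢
  obtain ⟨x, hx, rfl⟩ := hw
  exact rad_main (nr_compact _) (nr_convex _) hU hW Subset.rfl h.rep h1 hx

theorem norm_mat (hU : IsOpen U) (hW : numRange A ⊆ U) (h1 : ∀ z ∈ numRange A, ‖f z‖ ≤ 1)
    (h : IsValue U f A B) : ‖op B‖ ≤ 2 ∧ (‖op B‖ = 2 → Disc (numRange A) f 0) := by
  rw [numRange_eq] at hW h1 ⊢
  exact norm_main (nr_compact _) (nr_convex _) hU hW Subset.rfl h.rep h1

end Pool.Agent.Lib.MP_7e554c_an.CZ
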