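import Pool.Agent.Lib.MP_7e554c_an.CZ.RepA

/-! Removing the eigenvalues on the boundary. -/

open MeasureTheory Metric Set Filter Topology Complex Polynomial
open scoped InnerProductSpace ComplexConjugate Real

namespace Pool.Agent.Lib.MP_7e554c_an.CZ

set_option linter.unusedSectionVars false

variable {E : Type} [NormedAddCommGroup E] [InnerProductSpace ℂ E] [CompleteSpace E]
  [FiniteDimensional ℂ E]
  {Ω U : Set ℂ} {γ : ℝ → ℂ} {A T : Op E} {f : ℂ → ℂ} {x y : E}

theorem supp (cv : Convex ℝ Ω) {z : ℂ} (hz : z ∉ interior Ω) (cl : IsClosed Ω) :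
    ∃ ν : ℂ, ν ≠ 0 ∧ ∀ w ∈ Ω, (conj ν * (w - z)).re ≤ 0 := by
  have key : ∀ L : ℂ →ₗ[ℝ] ℝ, L ≠ 0 → (∀ w ∈ Ω, L w ≤ L z) →
      ∃ ν : ℂ, ν ≠ 0 ∧ ∀ w ∈ Ω, (conj ν * (w - z)).re ≤ 0 := fun L L0 hL => by
    have e : ∀ u : ℂ, L u = (conj ((L 1 : ℂ) + L I * I) * u).re := fun u => by
      have : u = u.re • (1 : ℂ) + u.im • I := by simp
      conv_lhs => rw [this, map_add, map_smul, map_smul]
      simp
      ring
    refine ⟨L 1 + L I * I, fun h => L0 (LinearMap.ext fun u => by rw [e u, h]; simp), fun w hw => ?_⟩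
    rw [← e, map_sub]
    linarith [hL w hw]
  by_cases hi : (interior Ω).Nonempty
  · obtain ⟨L, L0, hL⟩ := geometric_hahn_banach_of_nonempty_interior_point cv hz hi
    exact key L (fun h => L0 (ContinuousLinearMap.coe_injective h)) hL
  rcases Ω.eq_empty_or_nonempty with rfl | ⟨p, hp⟩
  · exact ⟨1, one_ne_zero, fun w hw => hw.elim⟩
  have hd : (affineSpan ℝ Ω).direction ≠ ⊤ := fun h =>
    hi (cv.interior_nonempty_iff_affineSpan_eq_top.2
      ((AffineSubspace.direction_eq_top_iff_of_nonempty ⟨p, subset_affineSpan _ _ hp⟩).1 h))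
  obtain ⟨L, L0, hL⟩ := Submodule.exists_le_ker_of_lt_top _ hd.lt_top
  have c : ∀ w ∈ Ω, L w = L p := fun w hw => by
    have := hL (AffineSubspace.vsub_mem_direction (subset_affineSpan _ _ hw)
      (subset_affineSpan _ _ hp))
    rwa [LinearMap.mem_ker, vsub_eq_sub, map_sub, sub_eq_zero] at this
  rcases le_total (L p) (L z) with h | h
  · exact key L L0 fun w hw => (c w hw).trans_le h
  · exact key (-L) (neg_ne_zero.2 L0) fun w hw => neg_le_neg (h.trans (c w hw).ge)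

theorem bd_normal (cv : Convex ℝ Ω) (cl : IsClosed Ω) (hA : NR A ⊆ Ω) {z : ℂ}
    (hz : z ∉ interior Ω) {v : E} (hv : A v = z • v) : star A v = conj z • v := by
  obtain ⟨ν, ν0, hν⟩ := supp cv hz cl
  obtain ⟨B, hB⟩ : ∃ B : Op E, B = conj ν • (z • (1 : Op E) - A) := ⟨_, rfl⟩
  have e : ∀ u : E, (⟪u, (B + star B) u⟫_ℂ).re = 2 * (⟪u, B u⟫_ℂ).re := fun u => by
    rw [add_apply, inner_add_right, star_right, add_re, ← inner_conj_symm (B u) u, conj_re, two_mul]
  have Bv : B v = 0 := by rw [hB, smul_apply, sh_ap, hv, sub_self, smul_zero]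
  have k := pos_ker (M := B + star B) (v := v) (by rw [star_add, star_star, add_comm])
    (fun u => ?_) (by rw [e, Bv, inner_zero_right, zero_re, mul_zero])
  · rw [add_apply, Bv, zero_add, hB, star_smul, star_sub, star_smul, star_one, smul_apply,
      smul_eq_zero_iff_right (by simpa using ν0), sub_apply, sub_eq_zero] at k
    exact k.symm
  · rw [e]
    by_cases h : u = 0
    · simp [h]
    obtain ⟨w, hw, e2⟩ := nr_scale A h
    have e3 : ⟪u, B u⟫_ℂ = ((‖u‖ ^ 2 : ℝ) : ℂ) * -(conj ν * (w - z)) := by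
      rw [hB, smul_apply, sh_ap, inner_smul_right, inner_sub_right, inner_smul_right, e2, nsq]
      ring
    rw [e3, re_ofReal_mul, neg_re]
    exact mul_nonneg zero_le_two (mul_nonneg (sq_nonneg _) (neg_nonneg.2 (hν w (hA hw))))

theorem inv_orth {G : Set E} {B : Op E} (h : ∀ v ∈ G, star B v ∈ Submodule.span ℂ G) {q : E}
    (hq : q ∈ (Submodule.span ℂ G)ᗮ) : B q ∈ (Submodule.span ℂ G)ᗮ := by
  rw [Submodule.mem_orthogonal]
  intro u hu
  have : star B u ∈ Submodule.span ℂ G :=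
    (Submodule.span_le (p := (Submodule.span ℂ G).comap (star B : Op E).toLinearMap)).2 h hu
  rw [← star_left]
  exact hq _ this

theorem comm_proj {G : Set E} {B : Op E} (h1 : ∀ v ∈ G, B v ∈ Submodule.span ℂ G)
    (h2 : ∀ v ∈ G, star B v ∈ Submodule.span ℂ G) :
    Commute B (Submodule.span ℂ G).starProjection := by
  ext w
  refine (Submodule.eq_starProjection_of_mem_orthogonal ?_ ?_).symm
  · exact (Submodule.span_le (p := (Submodule.span ℂ G).comap B.toLinearMap)).2 h1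
      (Submodule.starProjection_apply_mem _ w)
  · show B w - B _ ∈ _
    rw [← map_sub]
    exact inv_orth h2 (Submodule.sub_starProjection_mem_orthogonal w)

theorem Rep.cut (oU : IsOpen U) (R : Rep U A f T) {P : Op E} (pp : P * P = P) (cA : Commute A P)
    (cT : Commute T P) {c : ℂ} (hc : c ∈ U) :
    Rep U (A * (1 - P) + c • P) f (T * (1 - P) + f c • P) := by
  obtain ⟨K, k1, k2⟩ := R.ex
  obtain ⟨Q, hQ⟩ : ∃ Q, Q = 1 - P := ⟨_, rfl⟩
  have qA : Commute A Q := hQ ▸ (Commute.one_right A).sub_right cA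
  have qT : Commute T Q := hQ ▸ (Commute.one_right T).sub_right cT
  have qp : Q * P = 0 := by rw [hQ, sub_mul, one_mul, pp, sub_self]
  have pq : P * Q = 0 := by rw [hQ, mul_sub, mul_one, pp, sub_self]
  have qq : Q * Q = Q := by rw [hQ, mul_sub, mul_one, ← hQ, qp, sub_zero]
  rw [← hQ]
  have a1 : (A * Q + c • P) * Q = Q * A := by
    rw [add_mul, mul_assoc, qq, smul_mul_assoc, pq, smul_zero, add_zero, qA.eq]
  have a2 : Q * (A * Q + c • P) = A * Q := by
    rw [mul_add, ← mul_assoc, ← qA.eq, mul_assoc, qq, mul_smul_comm, qp, smul_zero, add_zero]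
  have a3 : (A * Q + c • P) * P = c • P := by
    rw [add_mul, mul_assoc, qp, mul_zero, zero_add, smul_mul_assoc, pp]
  have a4 : P * (A * Q + c • P) = c • P := by
    rw [mul_add, qA.eq, ← mul_assoc, pq, zero_mul, zero_add, mul_smul_comm, pp]
  have cm : ∀ (M : Op E) (d : ℂ), Commute A M → Commute (A * Q + c • P) (Q * M * Q + d • P) :=
    fun M d h => by
      refine Commute.add_right ?_ (Commute.smul_right (a3.trans a4.symm) d)
      show _ * _ = _ * _
      rw [← mul_assoc, ← mul_assoc, a1, mul_assoc (Q * M), a2, mul_assoc Q A, h.eq]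
      simp only [mul_assoc]
  have tq : Q * T * Q = T * Q := by rw [← qT.eq, mul_assoc, qq]
  refine ⟨R.df, tq ▸ cm T _ R.cm, fun z => Q * K z * Q + dslope f c z • P,
    ((k1.const_mul Q).mul_const Q).add
      (((differentiableOn_dslope (oU.mem_nhds hc)).2 R.df).smul_const P),
    fun z hz => ⟨cm _ _ (k2 z hz).1, ?_⟩⟩
  have b1 : (z • (1 : Op E) - (A * Q + c • P)) * (Q * K z * Q) = f z • Q - T * Q := by
    rw [← mul_assoc, ← mul_assoc, sub_mul, a1, smul_mul_assoc, one_mul,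
      show z • Q - Q * A = Q * (z • (1 : Op E) - A) by rw [mul_sub, mul_smul_comm, mul_one],
      mul_assoc Q, ← (k2 z hz).2, mul_sub, sub_mul, tq, mul_smul_comm, mul_one, smul_mul_assoc, qq]
  have b2 : (z • (1 : Op E) - (A * Q + c • P)) * (dslope f c z • P) = (f z - f c) • P := by
    rw [mul_smul_comm, sub_mul, a3, smul_mul_assoc, one_mul, ← sub_smul, smul_smul, mul_comm,
      ← smul_eq_mul, sub_smul_dslope]
  rw [mul_add, b1, b2, hQ]
  module

theorem red (D : Dom Ω U) (hA : NR A ⊆ Ω) (R : Rep U A f T) (bf : ∀ z ∈ Ω, ‖f z‖ ≤ 1)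
    (h : 1 < ‖T‖) : ∃ A' T' : Op E, NR A' ⊆ Ω ∧ spectrum ℂ A' ⊆ interior Ω ∧ Rep U A' f T' ∧
      ‖T‖ ≤ ‖T'‖ ∧ (interior Ω).Nonempty := by
  have cl := D.cp.isClosed
  obtain ⟨G, hG⟩ : ∃ G : Set E, G = {v | ∃ z ∈ Ω, z ∉ interior Ω ∧ A v = z • v} := ⟨_, rfl⟩
  have g : ∀ v ∈ G, ∃ z ∈ Ω, A v = z • v ∧ star A v = conj z • v ∧ T v = f z • v ∧
      star T v = conj (f z) • v := fun v hv => by
    rw [hG] at hv
    obtain ⟨z, h1, h2, h3⟩ := hv
    have h4 := bd_normal D.cv cl hA h2 h3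
    exact ⟨z, h1, h3, h4, R.eigv (D.sub h1) h3, R.eigv' (D.sub h1) h4⟩
  have mG : ∀ v z, z ∈ Ω → z ∉ interior Ω → A v = z • v → v ∈ G := fun v z h1 h2 h3 => by
    rw [hG]; exact ⟨z, h1, h2, h3⟩
  have sm : ∀ v ∈ G, ∀ a : ℂ, a • v ∈ Submodule.span ℂ G := fun v hv a =>
    Submodule.smul_mem _ _ (Submodule.subset_span hv)
  have sA : ∀ v ∈ G, star A v ∈ Submodule.span ℂ G := fun v hv => by
    obtain ⟨z, -, -, e, -⟩ := g v hv
    exact e ▸ sm v hv _
  have cA := comm_proj (B := A) (fun v hv => by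
    obtain ⟨z, -, e, -⟩ := g v hv
    exact e ▸ sm v hv _) sA
  have cT := comm_proj (G := G) (B := T) (fun v hv => by
    obtain ⟨z, -, -, -, e, -⟩ := g v hv
    exact e ▸ sm v hv _) (fun v hv => by
    obtain ⟨z, -, -, -, -, e⟩ := g v hv
    exact e ▸ sm v hv _)
  obtain ⟨x, nx, hx⟩ := exists_top (T := T) (by linarith)
  have xo : x ∈ (Submodule.span ℂ G)ᗮ := by
    rw [Submodule.mem_orthogonal]
    intro u hu
    refine Submodule.span_induction (fun v hv => ?_) (inner_zero_left _)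
      (fun a b _ _ ha hb => by rw [inner_add_left, ha, hb, add_zero])
      (fun a b _ hb => by rw [inner_smul_left, hb, mul_zero]) hu
    obtain ⟨z, hz, -, -, e1, e2⟩ := g v hv
    have a := star_right T v (T x)
    rw [hx, e1, inner_smul_left, ← star_left, e2, inner_smul_left, inner_smul_right, conj_conj,
      ← mul_assoc, conj_mul', ← ofReal_pow, ← sub_eq_zero, ← sub_mul, ← ofReal_sub] at a
    refine (mul_eq_zero.1 a).resolve_left (ofReal_ne_zero.2 (ne_of_gt ?_))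
    nlinarith [bf z hz, norm_nonneg (f z)]
  have x0 : x ≠ 0 := fun e => by rw [e, norm_zero] at nx; exact zero_ne_one nx
  have : Nontrivial (Submodule.span ℂ G)ᗮ := ⟨⟨x, xo⟩, 0, fun e => x0 (congrArg Subtype.val e)⟩
  obtain ⟨c, hc⟩ := Module.End.exists_eigenvalue ((A : E →ₗ[ℂ] E).restrict
    (p := (Submodule.span ℂ G)ᗮ) fun w hw => inv_orth sA hw)
  obtain ⟨w, hw⟩ := hc.exists_hasEigenvector
  have w0 : (w : E) ≠ 0 := fun e => hw.2 (Subtype.ext e)
  have w1 : A w = c • (w : E) := congrArg Subtype.val hw.apply_eq_smul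
  have cΩ : c ∈ Ω := hA (spec_sub A (eig.2 ⟨_, unit_vec w0, by rw [map_smul, w1, smul_comm]⟩))
  have ci : c ∈ interior Ω := by
    by_contra hn
    exact w0 (inner_self_eq_zero.1 (w.2 _ (Submodule.subset_span (mG _ c cΩ hn w1))))
  obtain ⟨P, hP⟩ : ∃ P : Op E, P = (Submodule.span ℂ G).starProjection := ⟨_, rfl⟩
  have pm : ∀ u, P u ∈ Submodule.span ℂ G := fun u => hP ▸ Submodule.starProjection_apply_mem _ u
  have po : ∀ u, u - P u ∈ (Submodule.span ℂ G)ᗮ := fun u =>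
    hP ▸ Submodule.sub_starProjection_mem_orthogonal u
  have ps : ∀ u ∈ Submodule.span ℂ G, P u = u := fun u hu =>
    hP ▸ Submodule.starProjection_eq_self_iff.2 hu
  have pz : ∀ u ∈ (Submodule.span ℂ G)ᗮ, P u = 0 := fun u hu =>
    hP ▸ (Submodule.starProjection_apply_eq_zero_iff _).2 hu
  have pp : P * P = P := ContinuousLinearMap.ext fun u => ps _ (pm u)
  have ap : ∀ (B : Op E) (d : ℂ) u, (B * (1 - P) + d • P) u = B (u - P u) + d • P u :=
    fun _ _ _ => rfl
  have nr : NR (A * (1 - P) + c • P) ⊆ Ω := by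
    rintro _ ⟨u, nu, rfl⟩
    obtain ⟨z, hz, e⟩ : ∃ z ∈ Ω, ⟪u - P u, A (u - P u)⟫_ℂ = ((‖u - P u‖ ^ 2 : ℝ) : ℂ) * z := by
      by_cases h0 : u - P u = 0
      · exact ⟨c, cΩ, by simp [h0]⟩
      · obtain ⟨z, hz, e⟩ := nr_scale A h0
        exact ⟨z, hA hz, e⟩
    have o1 : ⟪P u, u - P u⟫_ℂ = 0 := po u _ (pm u)
    have o2 : ⟪P u, A (u - P u)⟫_ℂ = 0 := inv_orth sA (po u) _ (pm u)
    have o3 : ⟪u - P u, P u⟫_ℂ = 0 := inner_eq_zero_symm.1 o1
    have d : u = (u - P u) + P u := (sub_add_cancel _ _).symm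
    have n1 : ‖u - P u‖ ^ 2 + ‖P u‖ ^ 2 = 1 := by
      have := norm_add_sq_eq_norm_sq_add_norm_sq_of_inner_eq_zero _ _ o3
      rw [← d, nu] at this
      linarith
    have e2 : ⟪u, (A * (1 - P) + c • P) u⟫_ℂ = ‖u - P u‖ ^ 2 • z + ‖P u‖ ^ 2 • c := by
      rw [ap]
      conv_lhs => enter [2]; rw [d]
      rw [inner_add_left, inner_add_right, inner_add_right, inner_smul_right, inner_smul_right, e,
        o2, o3, nsq, real_smul, real_smul]
      ring
    rw [e2]
    exact D.cv hz cΩ (sq_nonneg _) (sq_nonneg _) n1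
  refine ⟨_, _, nr, fun z hz => ?_, R.cut D.oU pp (hP ▸ cA) (hP ▸ cT) (D.sub cΩ), ?_, c, ci⟩
  · by_contra hn
    obtain ⟨v, nv, e⟩ := eig.1 hz
    rw [ap] at e
    have e1 := congrArg P e
    rw [map_add, pz _ (inv_orth sA (po v)), zero_add, map_smul, map_smul, ps _ (pm v),
      ← sub_eq_zero, ← sub_smul] at e1
    have e2 : P v = 0 :=
      (smul_eq_zero.1 e1).resolve_left (sub_ne_zero.2 fun h1 => hn (h1 ▸ ci))
    rw [e2, sub_zero, smul_zero, add_zero] at e
    rw [ps v (Submodule.subset_span (mG _ z (nr (spec_sub _ hz)) hn e))] at e2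
    rw [e2, norm_zero] at nv
    exact zero_ne_one nv
  · have e : (T * (1 - P) + f c • P) x = T x := by
      rw [ap, pz x xo, sub_zero, smul_zero, add_zero]
    have a := (star T).le_opNorm (T x)
    have b := (T * (1 - P) + f c • P).le_opNorm x
    rw [hx, norm_star, norm_smul, nx, mul_one, norm_real, Real.norm_of_nonneg (sq_nonneg _)] at a
    rw [e, nx, mul_one] at b
    nlinarith

end Pool.Agent.Lib.MP_7e554c_an.CZ
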