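import Pool.Agent.Lib.MP_7e554c_an.CZ.Core
import Pool.Agent.Lib.MP_7e554c_an.CZ.Eq5
import Pool.Agent.Lib.MP_7e554c_an.CZ.Red
import Pool.Agent.Lib.MP_7e554c_an.CZ.Curve

/-! The two bounds with their equality cases. -/

open MeasureTheory Metric Set Filter Topology Complex Polynomial
open scoped InnerProductSpace ComplexConjugate Real

namespace Pool.Agent.Lib.MP_7e554c_an.CZ

set_option linter.unusedSectionVars false

variable {E : Type} [NormedAddCommGroup E] [InnerProductSpace ℂ E] [CompleteSpace E]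
  [FiniteDimensional ℂ E]
  {Ω U : Set ℂ} {γ : ℝ → ℂ} {A T : Op E} {f : ℂ → ℂ} {x y : E}

theorem norm_main (cp : IsCompact Ω) (cv : Convex ℝ Ω) (oU : IsOpen U) (sub : Ω ⊆ U)
    (hA : NR A ⊆ Ω) (R : Rep U A f T) (bf : ∀ z ∈ Ω, ‖f z‖ ≤ 1) :
    ‖T‖ ≤ 2 ∧ (‖T‖ = 2 → Disc Ω f 0) := by
  by_cases h : 1 < ‖T‖
  swap
  · exact ⟨by linarith, fun h2 => absurd (by linarith) h⟩
  obtain ⟨δ, δ0, hδ⟩ := cp.exists_thickening_subset_open oU sub
  have D : Dom Ω (thickening δ Ω) :=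
    ⟨cp, cv, isOpen_thickening, cv.thickening δ, self_subset_thickening δ0 Ω⟩
  obtain ⟨A', T', h1, h2, h3, h4, h5⟩ := red D hA (R.mono hδ) bf h
  obtain ⟨γ, C⟩ := exists_crv cp cv h5
  have S : Sit Ω (thickening δ Ω) γ A' f T' := ⟨D, C, h1, h2, h3, bf⟩
  obtain ⟨k1, k2⟩ := S.core
  refine ⟨h4.trans k1, fun h6 => ?_⟩
  obtain ⟨x, y, e⟩ := k2 (le_antisymm k1 (h6 ▸ h4))
  exact e.disc S (h.trans_le h4)

theorem mob (a w : ℂ) : ‖-conj a * w + 1‖ ^ 2 - ‖1 * w + -a‖ ^ 2 = (1 - ‖a‖ ^ 2) * (1 - ‖w‖ ^ 2) := by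
  simp only [← normSq_eq_norm_sq, normSq_apply, add_re, add_im, mul_re, mul_im, neg_re, neg_im,
    conj_re, conj_im, one_re, one_im]
  ring

theorem rad_main (cp : IsCompact Ω) (cv : Convex ℝ Ω) (oU : IsOpen U) (sub : Ω ⊆ U)
    (hA : NR A ⊆ Ω) (R : Rep U A f T) (bf : ∀ z ∈ Ω, ‖f z‖ ≤ 1) (hx : ‖x‖ = 1) :
    ‖⟪x, T x⟫_ℂ‖ ≤ 5 / 4 ∧ (‖⟪x, T x⟫_ℂ‖ = 5 / 4 → Disc Ω f (1 / 2)) := by
  by_cases hp : ‖⟪x, T x⟫_ℂ‖ ≤ 1
  · exact ⟨by linarith, fun h => absurd hp (by linarith)⟩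
  obtain ⟨c, c1, hc⟩ := Complex.exists_norm_eq_mul_self ⟪x, T x⟫_ℂ
  obtain ⟨a, a1, ha⟩ : ∃ a : ℂ, ‖a‖ = 1 / 2 ∧ (conj a * ⟪x, T x⟫_ℂ).re = ‖⟪x, T x⟫_ℂ‖ / 2 := by
    refine ⟨((1 / 2 : ℝ) : ℂ) * conj c, by rw [norm_mul, RCLike.norm_conj, c1]; simp, ?_⟩
    rw [map_mul, conj_conj, conj_ofReal, mul_assoc, ← hc, re_ofReal_mul, ofReal_re]
    ring
  have oV : IsOpen (U ∩ f ⁻¹' ball 0 2) := R.df.continuousOn.isOpen_inter_preimage oU isOpen_ball
  have sV : Ω ⊆ U ∩ f ⁻¹' ball 0 2 := fun z hz =>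
    ⟨sub hz, mem_ball_zero_iff.2 ((bf z hz).trans_lt one_lt_two)⟩
  have nz : ∀ w : ℂ, ‖w‖ < 2 → -conj a * w + 1 ≠ 0 := fun w hw h => by
    have := congrArg norm (eq_neg_of_add_eq_zero_left h)
    rw [norm_mul, norm_neg, norm_neg, RCLike.norm_conj, a1, norm_one] at this
    linarith
  have R' := R.mono (inter_subset_left (t := f ⁻¹' ball 0 2))
  have inj : ∀ v, ((-conj a) • T + (1 : ℂ) • (1 : Op E)) v = 0 → v = 0 := fun v hv => by
    by_contra v0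
    have a0 : conj a ≠ 0 := fun h => by
      have := congrArg norm h
      rw [RCLike.norm_conj, a1, norm_zero] at this
      norm_num at this
    have e : T v = (conj a)⁻¹ • v := by
      rw [add_apply, smul_apply, one_smul, one_ap, neg_smul, neg_add_eq_zero] at hv
      rw [eq_inv_smul_iff₀ a0, hv]
    obtain ⟨z, hz, e2⟩ := R.spec ((spec_sub A).trans (hA.trans sub))
      (eig.2 ⟨_, unit_vec v0, by rw [map_smul, e, smul_comm]⟩)
    refine nz _ ((bf z (hA (spec_sub A hz))).trans_lt one_lt_two) ?_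
    rw [e2, neg_mul, mul_inv_cancel₀ a0, neg_add_cancel]
  obtain ⟨u, hu⟩ := unit_of_inj inj
  have Rg := (R'.affine 1 (-a)).mul ((R'.affine (-conj a) 1).inv
    (fun z hz => nz _ (mem_ball_zero_iff.1 hz.2)) (S := ↑u⁻¹) (hu ▸ u.inv_mul) (hu ▸ u.mul_inv))
  have bg : ∀ z ∈ Ω, ‖(1 * f z + -a) * (-conj a * f z + 1)⁻¹‖ ≤ 1 := fun z hz => by
    have n0 := norm_pos_iff.2 (nz _ ((bf z hz).trans_lt one_lt_two))
    rw [norm_mul, norm_inv, mul_inv_le_iff₀ n0, one_mul ‖_‖]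
    refine le_of_pow_le_pow_left₀ two_ne_zero n0.le ?_
    have := mob a (f z)
    have b := pow_le_one₀ (n := 2) (norm_nonneg _) (bf z hz)
    rw [a1] at this
    nlinarith
  obtain ⟨k1, k2⟩ := norm_main cp cv oV sV hA Rg bg
  have e1 : (((1 : ℂ) • T + (-a) • (1 : Op E)) * ↑u⁻¹) (x - conj a • T x) = -(a • x - T x) := by
    have : x - conj a • T x = (u : Op E) x := by
      rw [hu, add_apply, smul_apply, one_smul, one_ap, neg_smul, neg_add_eq_sub]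
    rw [this, ← mul_ap, Units.inv_mul_cancel_right, add_apply, smul_apply, smul_apply, one_ap]
    module
  have n1 := norm_sub_sq (𝕜 := ℂ) (a • x) (T x)
  have n2 := norm_sub_sq (𝕜 := ℂ) x (conj a • T x)
  rw [inner_smul_left, RCLike.re_to_complex, ha, norm_smul, a1, hx] at n1
  rw [inner_smul_right, RCLike.re_to_complex, ha, norm_smul, RCLike.norm_conj, a1, hx] at n2
  have b1 := (((1 : ℂ) • T + (-a) • (1 : Op E)) * ↑u⁻¹).le_opNorm (x - conj a • T x)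
  rw [e1, norm_neg] at b1
  refine ⟨?_, fun h => ?_⟩
  · have b2 := pow_le_pow_left₀ (norm_nonneg _)
      (b1.trans (mul_le_mul_of_nonneg_right k1 (norm_nonneg _))) 2
    rw [mul_pow, n1, n2] at b2
    linarith
  · have x0 : 0 < ‖x - conj a • T x‖ := norm_pos_iff.2 fun h0 => by
      have := inj x (by rw [add_apply, smul_apply, one_smul, one_ap, neg_smul, neg_add_eq_sub, h0])
      rw [this, norm_zero] at hx
      exact zero_ne_one hx
    have b2 : ‖a • x - T x‖ = 2 * ‖x - conj a • T x‖ :=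
      (sq_eq_sq₀ (norm_nonneg _) (by positivity)).1 (by rw [mul_pow, n1, n2, h]; ring)
    rw [b2] at b1
    obtain ⟨m, r, r0, hΩ, h1, h2⟩ := k2 (le_antisymm k1 (le_of_mul_le_mul_right b1 x0))
    refine ⟨m, r, r0, hΩ, ?_, fun z hz => ?_⟩
    · have mΩ : m ∈ Ω := hΩ ▸ mem_closedBall_self r0.le
      have := (mul_eq_zero.1 (norm_eq_zero.1 h1)).resolve_right
        (inv_ne_zero (nz _ ((bf m mΩ).trans_lt one_lt_two)))
      rw [one_mul, add_neg_eq_zero] at this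
      rw [this, a1]
    · have zΩ : z ∈ Ω := hΩ ▸ sphere_subset_closedBall hz
      have n0 := norm_ne_zero_iff.2 (nz _ ((bf z zΩ).trans_lt one_lt_two))
      have b3 := h2 z hz
      rw [norm_mul, norm_inv, mul_inv_eq_one₀ n0] at b3
      have := mob a (f z)
      rw [b3, sub_self, a1] at this
      exact (pow_eq_one_iff_of_nonneg (norm_nonneg _) two_ne_zero).1 (by linarith)

end Pool.Agent.Lib.MP_7e554c_an.CZ
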